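import Mathlib

/-!
# The companion matrix
-/

set_option autoImplicit false

namespace Pool.Agent.L7h1.PY.Comp

open Polynomial Matrix

variable (d : ℕ) (f : ℤ[X])

/-- the companion matrix of a monic polynomial of degree `d` -/
def cm : Matrix (Fin d) (Fin d) ℤ := fun i j =>
  if (j : ℕ) + 1 = d then - f.coeff i else if (i : ℕ) = j + 1 then 1 else 0

variable {d f}

lemma cm_mulVec {R : Type} [CommRing R] (w : Fin d → R) (i : Fin d) (l : Fin d) (hl : (l : ℕ) + 1 = d) :
    ((cm d f).map (Int.cast : ℤ → R)).mulVec w i =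
      (if h : (i : ℕ) = 0 then 0 else w ⟨i - 1, by omega⟩) - (f.coeff i : R) * w l := by
  rw [Matrix.mulVec, dotProduct]
  have h1 : ∀ j : Fin d, ((cm d f).map (Int.cast : ℤ → R)) i j * w j =
      (if j = l then - (f.coeff i : R) * w l else 0) +
      (if (i : ℕ) = j + 1 then w j else 0) := by
    intro j
    rw [Matrix.map_apply, cm]
    have hjl : j = l ↔ (j : ℕ) + 1 = d := by
      rw [Fin.ext_iff]
      omega
    by_cases hj : (j : ℕ) + 1 = d
    · have h2 : j = l := hjl.2 hj
      subst h2
      rw [if_pos hj, if_pos rfl, if_neg (by omega)]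
      push_cast
      ring
    · rw [if_neg hj, if_neg (fun h => hj (hjl.1 h))]
      by_cases hi : (i : ℕ) = j + 1
      · rw [if_pos hi, if_pos hi]
        push_cast
        ring
      · rw [if_neg hi, if_neg hi]
        push_cast
        ring
  rw [Finset.sum_congr rfl fun j _ => h1 j, Finset.sum_add_distrib, Finset.sum_ite_eq' Finset.univ l,
    if_pos (Finset.mem_univ _)]
  have h2 : ∑ j : Fin d, (if (i : ℕ) = j + 1 then w j else 0) =
      (if h : (i : ℕ) = 0 then 0 else w ⟨i - 1, by omega⟩) := by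
    by_cases hi : (i : ℕ) = 0
    · rw [dif_pos hi]
      exact Finset.sum_eq_zero fun j _ => if_neg (by omega)
    · rw [dif_neg hi]
      rw [Finset.sum_eq_single (⟨i - 1, by omega⟩ : Fin d)]
      · rw [if_pos]
        show (i : ℕ) = (i : ℕ) - 1 + 1
        omega
      · intro j _ hj
        rw [if_neg]
        intro h
        apply hj
        ext
        show (j : ℕ) = i - 1
        omega
      · intro h
        exact absurd (Finset.mem_univ _) h
  rw [h2]
  ring

/-- the eigenvector -/
lemma exists_eig {R : Type} [Field R] (hf : f.Monic) (hd : f.natDegree = d) (hd0 : 0 < d) (ω : R)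
    (hω : aeval ω f = 0) :
    ∃ v : Fin d → R, v ≠ 0 ∧ ∀ i, ((cm d f).map (Int.cast : ℤ → R)).mulVec v i = ω * v i := by
  -- Horner's scheme
  let v : Fin d → R := fun k => ∑ i ∈ Finset.range (d - k), (f.coeff (k + 1 + i) : R) * ω ^ i
  have hl : ((⟨d - 1, by omega⟩ : Fin d) : ℕ) + 1 = d := by
    show d - 1 + 1 = d
    omega
  have hvl : v ⟨d - 1, by omega⟩ = 1 := by
    show ∑ i ∈ Finset.range (d - (d - 1)), (f.coeff (d - 1 + 1 + i) : R) * ω ^ i = 1
    have h1 : d - (d - 1) = 1 := by omega
    have h2 : d - 1 + 1 = d := by omega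
    rw [h1, Finset.sum_range_one, h2, pow_zero, mul_one, ← hd]
    have h3 : f.coeff f.natDegree = 1 := hf
    rw [h3, Int.cast_one]
  refine ⟨v, ?_, fun i => ?_⟩
  · intro h
    have h1 := congrFun h ⟨d - 1, by omega⟩
    rw [hvl, Pi.zero_apply] at h1
    exact one_ne_zero h1
  · rw [cm_mulVec v i ⟨d - 1, by omega⟩ hl, hvl, mul_one]
    have hv : ω * v i = ∑ m ∈ Finset.range (d - i), (f.coeff (i + 1 + m) : R) * ω ^ (m + 1) := by
      show ω * ∑ m ∈ Finset.range (d - i), (f.coeff (i + 1 + m) : R) * ω ^ m = _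
      rw [Finset.mul_sum]
      refine Finset.sum_congr rfl fun m _ => ?_
      ring
    by_cases hi : (i : ℕ) = 0
    · rw [dif_pos hi, hv]
      have h1 : aeval ω f = ∑ m ∈ Finset.range (d + 1), (f.coeff m : R) * ω ^ m := by
        rw [aeval_eq_sum_range, hd]
        refine Finset.sum_congr rfl fun m _ => ?_
        rw [zsmul_eq_mul]
      rw [h1, Finset.sum_range_succ'] at hω
      rw [hi, Nat.sub_zero]
      rw [pow_zero, mul_one] at hω
      rw [zero_sub, eq_comm, eq_neg_iff_add_eq_zero, ← hω]
      congr 1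
      refine Finset.sum_congr rfl fun m _ => ?_
      rw [zero_add, add_comm 1 m]
    · rw [dif_neg hi, hv]
      show ∑ m ∈ Finset.range (d - (i - 1)), (f.coeff (i - 1 + 1 + m) : R) * ω ^ m - _ = _
      have h1 : d - (i - 1) = d - i + 1 := by omega
      have h2 : (i : ℕ) - 1 + 1 = i := by omega
      rw [h1, Finset.sum_range_succ', h2, pow_zero, mul_one, add_sub_cancel_right]
      refine Finset.sum_congr rfl fun m _ => ?_
      rw [show (i : ℕ) + (m + 1) = i + 1 + m by ring]

/-- `f(C) = 0` -/
lemma aeval_cm (hf : f.Monic) (hd : f.natDegree = d) (hd0 : 0 < d) : aeval (cm d f) f = 0 := by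
  -- the matrix as an endomorphism; `C e_j = e_(j+1)`
  have hlt : d - 1 < d := by omega
  set l : Fin d := ⟨d - 1, hlt⟩ with hldef
  have hl : (l : ℕ) + 1 = d := by
    show d - 1 + 1 = d
    omega
  have hmap : (cm d f).map (Int.cast : ℤ → ℤ) = cm d f := by
    ext i j
    simp
  have hmv : ∀ (w : Fin d → ℤ) (i : Fin d), (cm d f).mulVec w i =
      (if h : (i : ℕ) = 0 then 0 else w ⟨i - 1, by omega⟩) - f.coeff i * w l := by
    intro w i
    have h1 := cm_mulVec (f := f) w i l hl
    rw [hmap] at h1
    exact h1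
  have he : ∀ j (hj : j < d), ((cm d f) ^ j).mulVec (Pi.single (⟨0, hd0⟩ : Fin d) (1 : ℤ)) =
      Pi.single (⟨j, hj⟩ : Fin d) (1 : ℤ) := by
    intro j
    induction j with
    | zero =>
      intro hj
      rw [pow_zero, Matrix.one_mulVec]
    | succ j ih =>
      intro hj
      rw [pow_succ', ← Matrix.mulVec_mulVec, ih (by omega)]
      funext i
      rw [hmv]
      have h1 : (Pi.single (⟨j, by omega⟩ : Fin d) (1 : ℤ) : Fin d → ℤ) l = 0 := by
        apply Pi.single_eq_of_ne
        intro h
        rw [Fin.ext_iff] at h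
        have : (l : ℕ) = d - 1 := rfl
        simp only at h
        omega
      rw [h1, mul_zero, sub_zero]
      by_cases hi : (i : ℕ) = 0
      · rw [dif_pos hi, Pi.single_eq_of_ne]
        intro h
        rw [Fin.ext_iff] at h
        simp only at h
        omega
      · rw [dif_neg hi]
        by_cases hij : (i : ℕ) = j + 1
        · have e1 : (⟨(i : ℕ) - 1, by omega⟩ : Fin d) = ⟨j, by omega⟩ := by
            ext
            show (i : ℕ) - 1 = j
            omega
          have e2 : i = (⟨j + 1, hj⟩ : Fin d) := by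
            ext
            exact hij
          rw [e1, Pi.single_eq_same, e2, Pi.single_eq_same]
        · rw [Pi.single_eq_of_ne, Pi.single_eq_of_ne]
          · intro h
            rw [Fin.ext_iff] at h
            simp only at h
            omega
          · intro h
            rw [Fin.ext_iff] at h
            simp only at h
            omega
  have hd1 : ((cm d f) ^ d).mulVec (Pi.single (⟨0, hd0⟩ : Fin d) (1 : ℤ)) =
      fun i : Fin d => - f.coeff (i : ℕ) := by
    have h1 : (cm d f) ^ d = cm d f * (cm d f) ^ (d - 1) := by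
      rw [← pow_succ']
      congr 1
      omega
    rw [h1, ← Matrix.mulVec_mulVec, he (d - 1) hlt]
    funext i
    rw [hmv]
    have h2 : (Pi.single (⟨d - 1, hlt⟩ : Fin d) (1 : ℤ) : Fin d → ℤ) l = 1 := Pi.single_eq_same _ _
    rw [h2, mul_one]
    by_cases hi : (i : ℕ) = 0
    · rw [dif_pos hi, zero_sub]
    · rw [dif_neg hi, Pi.single_eq_of_ne, zero_sub]
      intro h
      rw [Fin.ext_iff] at h
      simp only at h
      omega
  have h0 : (aeval (cm d f) f).mulVec (Pi.single (⟨0, hd0⟩ : Fin d) (1 : ℤ)) = 0 := by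
    rw [aeval_eq_sum_range, hd, Finset.sum_range_succ, Matrix.add_mulVec, Matrix.sum_mulVec]
    have h1 : f.coeff d = 1 := by
      rw [← hd]
      exact hf
    rw [h1, one_smul, hd1]
    funext i
    rw [Pi.add_apply, Finset.sum_apply, Pi.zero_apply, Finset.sum_eq_single (i : ℕ)]
    · rw [Matrix.smul_mulVec, Pi.smul_apply, he i i.2, Pi.single_eq_same, smul_eq_mul, mul_one,
        add_neg_cancel]
    · intro j hj hji
      rw [Finset.mem_range] at hj
      rw [Matrix.smul_mulVec, Pi.smul_apply, he j hj, Pi.single_eq_of_ne, smul_zero]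
      intro h
      rw [Fin.ext_iff] at h
      exact hji h.symm
    · intro h
      exact absurd (Finset.mem_range.2 i.2) h
  -- all columns
  have hc : ∀ j, (aeval (cm d f) f).mulVec (Pi.single (j : Fin d) (1 : ℤ)) = 0 := by
    intro j
    have h1 := he j j.2
    have h2 : (⟨(j : ℕ), j.2⟩ : Fin d) = j := rfl
    rw [h2] at h1
    rw [← h1, Matrix.mulVec_mulVec]
    have h3 : aeval (cm d f) f * (cm d f) ^ (j : ℕ) = (cm d f) ^ (j : ℕ) * aeval (cm d f) f := by
      have h4 : (cm d f) ^ (j : ℕ) = aeval (cm d f) (X ^ (j : ℕ) : ℤ[X]) := by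
        rw [map_pow, aeval_X]
      rw [h4, ← map_mul, ← map_mul, mul_comm]
    rw [h3, ← Matrix.mulVec_mulVec, h0, Matrix.mulVec_zero]
  ext i j
  have h1 := congrFun (hc j) i
  rw [Matrix.mulVec_single_one] at h1
  exact h1

end Pool.Agent.L7h1.PY.Comp
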