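import Pool.Agent.L7h1.PY.Stm
import Pool.Agent.L7h1.PX.Stm3

/-!
# Project PY: the core theorem for a cyclic extension `H/B`
-/

set_option autoImplicit false
set_option linter.unusedSectionVars false
set_option linter.unusedVariables false

namespace Pool.Agent.L7h1.PY

open NumberField TensorProduct Pool.Agent.W289.SL Module IsDedekindDomain Polynomial
open Pool.Agent.L7h1.PX

variable {p : ℕ} [hp : Fact p.Prime]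

/-- the kernel of the logarithms is not zero in a part of level `j` -/
def Lev2 {H : Type} [Field H] [NumberField H] {L : ℂ_[p] → ℂ_[p]} (hL : IsIwasawaLog p L)
    (T : Set (H →+* ℂ_[p])) (γ δ ρ : H ≃+* H) (t a b c j : ℕ) : Prop :=
  ∃ (x : UM p H) (ω ξ : ℂ_[p]), x ≠ 0 ∧ IsPrimitiveRoot ω t ∧
    IsPrimitiveRoot ξ (p ^ j) ∧ (∀ σ ∈ T, logLin hL σ x = 0) ∧
    actLin p (ρ : H →+* H) x = (ω ^ a * ξ) • x ∧
    actLin p (γ : H →+* H) x = ξ ^ b • x ∧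
    actLin p (δ : H →+* H) x = (ω * ξ ^ c) • x

lemma dvd_div {B : Type} [Field B] [NumberField B] {v : HeightOneSpectrum (𝓞 B)} {m : ℕ} {a a' : Bˣ}
    (h : Dvd v m (a : B)) (h' : Dvd v m (a' : B)) : Dvd v m ((a / a' : Bˣ) : B) := by
  obtain ⟨b, hb⟩ := h
  obtain ⟨b', hb'⟩ := h'
  exact ⟨b / b', by rw [Units.val_div_eq_div_val, map_div₀, hb, hb', map_div₀, div_pow]⟩

lemma dvd_mono {B : Type} [Field B] [NumberField B] {v : HeightOneSpectrum (𝓞 B)} {k k' : ℕ} {a : B}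
    (hk : k' ≤ k) (h : Dvd v (p ^ k) a) : Dvd v (p ^ k') a := by
  obtain ⟨b, hb⟩ := h
  refine ⟨b ^ p ^ (k - k'), ?_⟩
  rw [hb, map_pow, ← pow_mul, ← pow_add]
  congr 2
  omega

/-- Selmer elements of `B` from levels of the kernel over `H` -/
theorem core_aux (hUNI : S_UNI2) (hDES : S_DES) (t : ℕ) (ht : 0 < t) (c₁ : ℕ)
    (hc₁ : ∀ (B H : Type) [Field B] [NumberField B] [Field H] [NumberField H] [Algebra B H]
      [IsGalois B H] (n : ℕ), finrank B H = p ^ n → ∀ γ : H ≃ₐ[B] H,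
      (∀ g : H ≃ₐ[B] H, ∃ i : ℕ, g = γ ^ i) → ∀ (δ : H ≃+* H) (δB : B ≃+* B),
      (∀ b, δ (algebraMap B H b) = algebraMap B H (δB b)) → (∀ x, δB^[t] x = x) →
      ∀ (L : ℂ_[p] → ℂ_[p]), IsIwasawaLog p L → ∀ (S : Set (B →+* ℂ_[p])), S.Nonempty →
      (∀ τ ∈ S, ∀ ζ ∈ cl τ, ζ ^ p = 1 → ζ = 1) →
      ∀ (Q R : Finset (HeightOneSpectrum (𝓞 B))) (m : HeightOneSpectrum (𝓞 B) → ℕ),
      (∀ w : HeightOneSpectrum (𝓞 H), Okr p S δB t Q R m w) → (∀ v ∈ R, v ∉ Q) →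
      ∀ (k : ℕ) (y : (𝓞 H)ˣ),
      (∃ w : (𝓞 H)ˣ, γ ((y : 𝓞 H) : H) = ((y : 𝓞 H) : H) * ((w : 𝓞 H) : H) ^ p ^ k) →
      (∃ w : (𝓞 H)ˣ, aeval (uE (δ : H →+* H)) (cyclotomic t ℤ) (Additive.ofMul y) =
        p ^ k • Additive.ofMul w) →
      (∀ ε : ℝ, 0 < ε → ∃ w : (𝓞 H)ˣ, ∀ σ : H →+* ℂ_[p], σ.comp (algebraMap B H) ∈ S →
        ‖L (σ (((y * w ^ p ^ k : (𝓞 H)ˣ) : 𝓞 H) : H))‖ < ε) →
      ∃ (a : Bˣ) (z : Hˣ), ((y : 𝓞 H) : H) = algebraMap B H (a : B) * (z : H) ^ p ^ k ∧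
        (∀ v : HeightOneSpectrum (𝓞 B), v ∉ Q → v ∉ R → Dvd v (p ^ k) (a : B)) ∧
        (∀ v : HeightOneSpectrum (𝓞 B), v ∉ R → Dvd v (p ^ (k - c₁)) (a : B)) ∧
        (∀ v ∈ R, Dvd v (p ^ (k - m v)) (a : B)) ∧
        (∀ τ ∈ S, ∃ b ∈ cl τ, b ^ p ^ k = τ (a : B)) ∧
        ∃ c : Bˣ, aeval (bE (δB : B →+* B)) (cyclotomic t ℤ) (Additive.ofMul a) =
          p ^ k • Additive.ofMul c)
    (B : Type) [Field B] [NumberField B] {L : ℂ_[p] → ℂ_[p]} (hL : IsIwasawaLog p L)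
    (S : Set (B →+* ℂ_[p])) (hSne : S.Nonempty)
    (hcl : ∀ τ τ' : B →+* ℂ_[p], (∀ y, ‖τ' y‖ = ‖τ y‖) → τ ∈ S → τ' ∈ S)
    (hμ : ∀ τ ∈ S, ∀ ζ ∈ cl τ, ζ ^ p = 1 → ζ = 1) (δB : B ≃+* B)
    (hδB : ∀ x, δB^[t] x = x) (Q R : Finset (HeightOneSpectrum (𝓞 B)))
    (m : HeightOneSpectrum (𝓞 B) → ℕ)
    (H : Type) [Field H] [NumberField H] [Algebra B H] [IsGalois B H] (n : ℕ)
    (hn : finrank B H = p ^ n) (γ : H ≃ₐ[B] H) (hγ : ∀ g : H ≃ₐ[B] H, ∃ i : ℕ, g = γ ^ i)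
    (δ ρ : H ≃+* H) (hδ : ∀ b, δ (algebraMap B H b) = algebraMap B H (δB b))
    (hγρ : ∀ x, γ (ρ x) = ρ (γ x)) (hδρ : ∀ x, δ (ρ x) = ρ (δ x))
    (hρ : ∀ σ ∈ Ov H S, σ.comp (ρ : H →+* H) ∈ Ov H S)
    (hok : ∀ w : HeightOneSpectrum (𝓞 H), Okr p S δB t Q R m w) (hRQ : ∀ v ∈ R, v ∉ Q) (N a b c : ℕ)
    (J : Finset ℕ) (hJ : ∀ j ∈ J, 1 ≤ j ∧ j ≤ N ∧ Lev2 hL (Ov H S) (γ : H ≃+* H) δ ρ t a b c j) :
    ∃ Z : Finset Bˣ, p ^ J.card ≤ Z.card ∧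
      (∀ a ∈ Z, (∀ v : HeightOneSpectrum (𝓞 B), v ∉ Q → v ∉ R → Dvd v (p ^ J.card) (a : B)) ∧
        (∀ v : HeightOneSpectrum (𝓞 B), v ∉ R → Dvd v (p ^ (J.card - c₁)) (a : B)) ∧
        (∀ v ∈ R, Dvd v (p ^ (J.card - m v)) (a : B)) ∧
        (∀ τ ∈ S, ∃ b ∈ cl τ, b ^ p ^ J.card = τ (a : B)) ∧
        ∃ c : Bˣ, aeval (bE (δB : B →+* B)) (cyclotomic t ℤ) (Additive.ofMul a) =
          p ^ J.card • Additive.ofMul c) ∧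
      ∀ a ∈ Z, ∀ a' ∈ Z, a ≠ a' → ¬ ∃ c : Bˣ, a = a' * c ^ p ^ J.card := by
  classical
  obtain ⟨τ0, hτ0⟩ := hSne
  obtain ⟨σ0, hσ0⟩ := exists_over (H := H) τ0
  have hμH := noMu_of_cl σ0 (hDES p B H n hn σ0 (by rw [hσ0]; exact hμ τ0 hτ0)).1
  obtain ⟨Y, hY1, hY2, hY3⟩ := hUNI p H hμH L hL (Ov H S) (γ : H ≃+* H) δ ρ N t a b c ht hγρ hδρ
    (fun σ σ' h hσ => hcl _ _ (fun y => h _) hσ) hρ J hJ
  have key := fun y (hy : y ∈ Y) => hc₁ B H n hn γ hγ δ δB hδ hδB L hL S ⟨τ0, hτ0⟩ hμ Q R m hok hRQ J.card y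
    (hY3 y hy).1 (hY3 y hy).2.1 (hY3 y hy).2.2
  choose a z hyaz hk using key
  -- congruent elements
  have hcong : ∀ y (hy : y ∈ Y) y' (hy' : y' ∈ Y) (c : Bˣ), a y hy = a y' hy' * c ^ p ^ J.card →
      y = y' := by
    intro y hy y' hy' c hc
    by_contra hne
    apply hY2 y hy y' hy' hne
    have h1 := hyaz y hy
    have h2 := hyaz y' hy'
    set w : H := algebraMap B H (c : B) * (z y hy : H) / (z y' hy' : H) with hw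
    have hz0 : (z y' hy' : H) ≠ 0 := (z y' hy').ne_zero
    have h3 : ((y : 𝓞 H) : H) = ((y' : 𝓞 H) : H) * w ^ p ^ J.card := by
      rw [h1, h2, hc, hw, Units.val_mul, Units.val_pow_eq_pow_val, map_mul, map_pow, div_pow, mul_pow]
      field_simp
    have hpk : 0 < p ^ J.card := pow_pos hp.out.pos _
    have hw0 : w ≠ 0 := by
      rw [hw]
      exact div_ne_zero (mul_ne_zero ((_root_.map_ne_zero _).2 c.ne_zero) (z y hy).ne_zero) hz0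
    have hy0 : ((y' : 𝓞 H) : H) ≠ 0 := by
      exact_mod_cast (y'.ne_zero)
    have h4 : w ^ p ^ J.card = (((y * y'⁻¹ : (𝓞 H)ˣ) : 𝓞 H) : H) := by
      have h5 : (((y * y'⁻¹ : (𝓞 H)ˣ) : 𝓞 H) : H) * ((y' : 𝓞 H) : H) = ((y : 𝓞 H) : H) := by
        rw [← map_mul, ← Units.val_mul, inv_mul_cancel_right]
      have h6 := h3
      rw [← h5, mul_comm] at h6
      exact (mul_left_cancel₀ hy0 h6).symm
    have hi1 : IsIntegral ℤ w := by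
      refine IsIntegral.of_pow hpk ?_
      rw [h4]
      exact RingOfIntegers.isIntegral_coe _
    have hi2 : IsIntegral ℤ w⁻¹ := by
      refine IsIntegral.of_pow hpk ?_
      have h5 : w⁻¹ ^ p ^ J.card = (((y' * y⁻¹ : (𝓞 H)ˣ) : 𝓞 H) : H) := by
        rw [inv_pow, h4]
        have h6 : (((y * y'⁻¹ : (𝓞 H)ˣ) : 𝓞 H) : H) * (((y' * y⁻¹ : (𝓞 H)ˣ) : 𝓞 H) : H) = 1 := by
          rw [← map_mul, ← Units.val_mul]
          have : y * y'⁻¹ * (y' * y⁻¹) = 1 := by group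
          rw [this, Units.val_one, map_one]
        exact inv_eq_of_mul_eq_one_right h6
      rw [h5]
      exact RingOfIntegers.isIntegral_coe _
    refine ⟨⟨⟨w, hi1⟩, ⟨w⁻¹, hi2⟩, ?_, ?_⟩, ?_⟩
    · apply RingOfIntegers.ext
      exact mul_inv_cancel₀ hw0
    · apply RingOfIntegers.ext
      exact inv_mul_cancel₀ hw0
    · apply Units.ext
      apply RingOfIntegers.ext
      exact h3
  have hinj : Function.Injective fun y : {x // x ∈ Y} => a y.1 y.2 := by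
    rintro ⟨y, hy⟩ ⟨y', hy'⟩ h
    apply Subtype.ext
    refine hcong y hy y' hy' 1 ?_
    rw [one_pow, mul_one]
    exact h
  refine ⟨Y.attach.image fun y => a y.1 y.2, ?_, ?_, ?_⟩
  · rw [Finset.card_image_of_injective _ hinj, Finset.card_attach]
    exact hY1
  · intro b hb
    rw [Finset.mem_image] at hb
    obtain ⟨⟨y, hy⟩, -, rfl⟩ := hb
    exact hk y hy
  · intro b hb b' hb' hne hc
    rw [Finset.mem_image] at hb hb'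
    obtain ⟨⟨y, hy⟩, -, rfl⟩ := hb
    obtain ⟨⟨y', hy'⟩, -, rfl⟩ := hb'
    obtain ⟨c, hc⟩ := hc
    apply hne
    have h1 := hcong y hy y' hy' c hc
    subst h1
    rfl

/-- many of the elements have the same valuations at `R`, up to `p^k`; their quotients -/
theorem quot (hPIG : S_PIG) {B : Type} [Field B] [NumberField B] (S : Set (B →+* ℂ_[p]))
    (δB : B ≃+* B) (t k c₁ : ℕ) (Q R : Finset (HeightOneSpectrum (𝓞 B)))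
    (m : HeightOneSpectrum (𝓞 B) → ℕ) (Z : Finset Bˣ) (hZne : Z.Nonempty)
    (hZ : ∀ a ∈ Z, (∀ v : HeightOneSpectrum (𝓞 B), v ∉ Q → v ∉ R → Dvd v (p ^ k) (a : B)) ∧
        (∀ v : HeightOneSpectrum (𝓞 B), v ∉ R → Dvd v (p ^ (k - c₁)) (a : B)) ∧
        (∀ v ∈ R, Dvd v (p ^ (k - m v)) (a : B)) ∧
        (∀ τ ∈ S, ∃ b ∈ cl τ, b ^ p ^ k = τ (a : B)) ∧
        ∃ c : Bˣ, aeval (bE (δB : B →+* B)) (cyclotomic t ℤ) (Additive.ofMul a) =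
          p ^ k • Additive.ofMul c)
    (hZ' : ∀ a ∈ Z, ∀ a' ∈ Z, a ≠ a' → ¬ ∃ c : Bˣ, a = a' * c ^ p ^ k) :
    ∃ Y : Finset Bˣ, Z.card ≤ Y.card * p ^ (∑ v ∈ R, m v) ∧
      (∀ a ∈ Y, (∀ v : HeightOneSpectrum (𝓞 B), v ∉ Q → Dvd v (p ^ k) (a : B)) ∧
        (∀ v : HeightOneSpectrum (𝓞 B), Dvd v (p ^ (k - c₁)) (a : B)) ∧
        (∀ τ ∈ S, ∃ b ∈ cl τ, b ^ p ^ k = τ (a : B)) ∧
        ∃ c : Bˣ, aeval (bE (δB : B →+* B)) (cyclotomic t ℤ) (Additive.ofMul a) =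
          p ^ k • Additive.ofMul c) ∧
      ∀ a ∈ Y, ∀ a' ∈ Y, a ≠ a' → ¬ ∃ c : Bˣ, a = a' * c ^ p ^ k := by
  classical
  obtain ⟨Y', hY', a₀, ha₀, hcard, hR⟩ := hPIG p B k R m Z hZne fun a ha => (hZ a ha).2.2.1
  have ha₀Z := hY' ha₀
  have hinj : Function.Injective fun a : Bˣ => a / a₀ := fun a a' h => by
    simpa using h
  refine ⟨Y'.image fun a => a / a₀, ?_, ?_, ?_⟩
  · rw [Finset.card_image_of_injective _ hinj]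
    exact hcard
  · intro b hb
    rw [Finset.mem_image] at hb
    obtain ⟨a, ha, rfl⟩ := hb
    have haZ := hY' ha
    refine ⟨fun v hv => ?_, fun v => ?_, fun τ hτ => ?_, ?_⟩
    · by_cases hvR : v ∈ R
      · exact hR a ha v hvR
      · exact dvd_div ((hZ a haZ).1 v hv hvR) ((hZ a₀ ha₀Z).1 v hv hvR)
    · by_cases hvR : v ∈ R
      · exact dvd_mono (Nat.sub_le k c₁) (hR a ha v hvR)
      · exact dvd_div ((hZ a haZ).2.1 v hvR) ((hZ a₀ ha₀Z).2.1 v hvR)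
    · obtain ⟨b, hb, hb'⟩ := (hZ a haZ).2.2.2.1 τ hτ
      obtain ⟨c, hc, hc'⟩ := (hZ a₀ ha₀Z).2.2.2.1 τ hτ
      refine ⟨b / c, div_mem hb hc, ?_⟩
      rw [div_pow, hb', hc', Units.val_div_eq_div_val, map_div₀]
    · obtain ⟨b, hb⟩ := (hZ a haZ).2.2.2.2
      obtain ⟨c, hc⟩ := (hZ a₀ ha₀Z).2.2.2.2
      refine ⟨b / c, ?_⟩
      rw [ofMul_div, map_sub, hb, hc, ofMul_div]
      exact (nsmul_sub _ _ _).symm
  · intro b hb b' hb' hne hc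
    rw [Finset.mem_image] at hb hb'
    obtain ⟨a, ha, rfl⟩ := hb
    obtain ⟨a', ha', rfl⟩ := hb'
    obtain ⟨c, hc⟩ := hc
    refine hZ' a (hY' ha) a' (hY' ha') (fun h => hne (by rw [h])) ⟨c, ?_⟩
    have h1 : a = (a / a₀) * a₀ := (div_mul_cancel a a₀).symm
    rw [h1, hc, mul_right_comm, div_mul_cancel]

/-- **The core theorem.** -/
theorem core (hUNI : S_UNI2) (hDOWN : S_DOWN2) (hFINQ : S_FINQ) (hDES : S_DES) (hPIG : S_PIG)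
    (B : Type) [Field B] [NumberField B] {L : ℂ_[p] → ℂ_[p]} (hL : IsIwasawaLog p L)
    (S : Set (B →+* ℂ_[p])) (hSne : S.Nonempty)
    (hcl : ∀ τ τ' : B →+* ℂ_[p], (∀ y, ‖τ' y‖ = ‖τ y‖) → τ ∈ S → τ' ∈ S)
    (hμ : ∀ τ ∈ S, ∀ ζ ∈ cl τ, ζ ^ p = 1 → ζ = 1) (δB : B ≃+* B) (t : ℕ) (ht : 0 < t)
    (hδB : ∀ x, δB^[t] x = x) (hB : Base hL S δB t) (Q : Finset (HeightOneSpectrum (𝓞 B))) :
    ∃ e : ℕ, ∀ (R : Finset (HeightOneSpectrum (𝓞 B))) (m : HeightOneSpectrum (𝓞 B) → ℕ),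
      (∀ v ∈ R, v ∉ Q) → ∀ (H : Type) [Field H] [NumberField H] [Algebra B H] [IsGalois B H] (n : ℕ),
      finrank B H = p ^ n → ∀ γ : H ≃ₐ[B] H, (∀ g : H ≃ₐ[B] H, ∃ i : ℕ, g = γ ^ i) →
      ∀ δ ρ : H ≃+* H, (∀ b, δ (algebraMap B H b) = algebraMap B H (δB b)) →
      (∀ x, γ (ρ x) = ρ (γ x)) → (∀ x, δ (ρ x) = ρ (δ x)) →
      (∀ σ ∈ Ov H S, σ.comp (ρ : H →+* H) ∈ Ov H S) →
      (∀ w : HeightOneSpectrum (𝓞 H), Okr p S δB t Q R m w) → ∀ N a b c : ℕ,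
      ∀ J : Finset ℕ, (∀ j ∈ J, 1 ≤ j ∧ j ≤ N ∧ Lev2 hL (Ov H S) (γ : H ≃+* H) δ ρ t a b c j) →
      J.card ≤ e + ∑ v ∈ R, m v := by
  obtain ⟨τ0, hτ0⟩ := hSne
  have hμB := noMu_of_cl τ0 (hμ τ0 hτ0)
  obtain ⟨c₁, hc₁⟩ := hDOWN p t ht
  obtain ⟨C, hC⟩ := hFINQ p B hμB L hL S δB t ht hδB hB Q c₁
  refine ⟨C, fun R m hRQ H _ _ _ _ n hn γ hγ δ ρ hδ hγρ hδρ hρ hok N a b c J hJ => ?_⟩
  obtain ⟨Z, hZ1, hZ2, hZ3⟩ := core_aux hUNI hDES t ht c₁ hc₁ B hL S ⟨τ0, hτ0⟩ hcl hμ δB hδB Q R m H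
    n hn γ hγ δ ρ hδ hγρ hδρ hρ hok hRQ N a b c J hJ
  have hZne : Z.Nonempty := Finset.card_pos.1 (lt_of_lt_of_le (pow_pos hp.out.pos _) hZ1)
  obtain ⟨Y, hY1, hY2, hY3⟩ := quot hPIG S δB t J.card c₁ Q R m Z hZne hZ2 hZ3
  have hcard := hC J.card Y hY2 hY3
  have h1 : p ^ J.card < p ^ (C + ∑ v ∈ R, m v) := by
    calc p ^ J.card ≤ Y.card * p ^ (∑ v ∈ R, m v) := hZ1.trans hY1
      _ ≤ C * p ^ (∑ v ∈ R, m v) := Nat.mul_le_mul_right _ hcard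
      _ < p ^ C * p ^ (∑ v ∈ R, m v) :=
        Nat.mul_lt_mul_of_pos_right (Nat.lt_pow_self hp.out.one_lt) (pow_pos hp.out.pos _)
      _ = p ^ (C + ∑ v ∈ R, m v) := (pow_add _ _ _).symm
  exact ((Nat.pow_lt_pow_iff_right hp.out.one_lt).1 h1).le

/-- **Less than `m₀ + ∑ m_v` exceptions if the Selmer group modulo `p^(m₀)` has less than `p^(m₀)` elements.** -/
theorem core_sel (hUNI : S_UNI2) (hDOWN : S_DOWN2) (hDES : S_DES) (hPIG : S_PIG) (hSELG : S_SELG)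
    (B : Type) [Field B] [NumberField B] {L : ℂ_[p] → ℂ_[p]} (hL : IsIwasawaLog p L)
    (S : Set (B →+* ℂ_[p])) (hSne : S.Nonempty)
    (hcl : ∀ τ τ' : B →+* ℂ_[p], (∀ y, ‖τ' y‖ = ‖τ y‖) → τ ∈ S → τ' ∈ S)
    (hμ : ∀ τ ∈ S, ∀ ζ ∈ cl τ, ζ ^ p = 1 → ζ = 1) (δB : B ≃+* B) (t : ℕ) (ht : 0 < t)
    (hδB : ∀ x, δB^[t] x = x) (m₀ : ℕ) (hB : SelLt p S δB t m₀)
    (R : Finset (HeightOneSpectrum (𝓞 B))) (m : HeightOneSpectrum (𝓞 B) → ℕ)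
    (H : Type) [Field H] [NumberField H] [Algebra B H] [IsGalois B H] (n : ℕ)
    (hn : finrank B H = p ^ n) (γ : H ≃ₐ[B] H) (hγ : ∀ g : H ≃ₐ[B] H, ∃ i : ℕ, g = γ ^ i)
    (δ ρ : H ≃+* H) (hδ : ∀ b, δ (algebraMap B H b) = algebraMap B H (δB b))
    (hγρ : ∀ x, γ (ρ x) = ρ (γ x)) (hδρ : ∀ x, δ (ρ x) = ρ (δ x))
    (hρ : ∀ σ ∈ Ov H S, σ.comp (ρ : H →+* H) ∈ Ov H S)
    (hok : ∀ w : HeightOneSpectrum (𝓞 H), Okr p S δB t ∅ R m w) (N a b c : ℕ)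
    (J : Finset ℕ) (hJ : ∀ j ∈ J, 1 ≤ j ∧ j ≤ N ∧ Lev2 hL (Ov H S) (γ : H ≃+* H) δ ρ t a b c j) :
    J.card < m₀ + ∑ v ∈ R, m v := by
  classical
  obtain ⟨c₁, hc₁⟩ := hDOWN p t ht
  obtain ⟨Z, hZ1, hZ2, hZ3⟩ := core_aux hUNI hDES t ht c₁ hc₁ B hL S hSne hcl hμ δB hδB ∅ R m H
    n hn γ hγ δ ρ hδ hγρ hδρ hρ hok (fun v _ => Finset.notMem_empty v) N a b c J hJ
  have hZne : Z.Nonempty := Finset.card_pos.1 (lt_of_lt_of_le (pow_pos hp.out.pos _) hZ1)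
  obtain ⟨Y, hY1, hY2, hY3⟩ := quot hPIG S δB t J.card c₁ ∅ R m Z hZne hZ2 hZ3
  have hcard := hSELG p B S hSne hμ δB t m₀ hB J.card Y
    (fun a ha => ⟨fun v => (hY2 a ha).1 v (Finset.notMem_empty v), (hY2 a ha).2.2.1,
      (hY2 a ha).2.2.2⟩) hY3
  have h1 : p ^ J.card < p ^ (m₀ + ∑ v ∈ R, m v) := by
    calc p ^ J.card ≤ Y.card * p ^ (∑ v ∈ R, m v) := hZ1.trans hY1
      _ < p ^ m₀ * p ^ (∑ v ∈ R, m v) :=
        Nat.mul_lt_mul_of_pos_right hcard (pow_pos hp.out.pos _)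
      _ = p ^ (m₀ + ∑ v ∈ R, m v) := (pow_add _ _ _).symm
  exact (Nat.pow_lt_pow_iff_right hp.out.one_lt).1 h1

end Pool.Agent.L7h1.PY
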