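import Pool.Agent.L7h1.PY.Red
import Pool.Agent.L7h97.PX.Avg

/-!
# Project PY: plain characters and averages
-/

set_option autoImplicit false
set_option linter.unusedSectionVars false

namespace Pool.Agent.L7h1.PY

open NumberField TensorProduct Pool.Agent.W289.SL Module IsDedekindDomain Polynomial
open Pool.Agent.L7h1.PX

variable {p : ℕ} [hp : Fact p.Prime]

/-- the group `(ℤ/p^n)^r` -/
abbrev Vr (p n r : ℕ) : Type := Fin r → Multiplicative (ZMod (p ^ n))

/-- multiplication by an element of smaller `p`-power order does not change the order -/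
lemma order_mul {X : Type} [CommGroup X] {a b : X} {s j : ℕ} (ha : orderOf a = p ^ s)
    (hb : orderOf b = p ^ j) (hsj : s < j) : orderOf (a * b) = p ^ j := by
  rw [← hb]
  refine (Commute.all a b).orderOf_mul_eq_right_of_forall_prime_mul_dvd ?_ ?_
  · rw [← orderOf_pos_iff, hb]
    exact pow_pos hp.out.pos _
  · intro q hq hqa
    rw [ha] at hqa ⊢
    have h1 : q = p := (Nat.prime_dvd_prime_iff_eq hq hp.out).1 (hq.dvd_of_dvd_pow hqa)
    rw [h1, hb, ← pow_succ']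
    exact pow_dvd_pow p hsj

lemma pow_shift {X : Type} [CommGroup X] (a : X) (n i₀ i : ℕ) (hn : orderOf a = p ^ n) :
    a ^ (i₀ * (p ^ n - 1) + i) = (a ^ i₀)⁻¹ * a ^ i := by
  have h1 : (a ^ i₀)⁻¹ = (a ^ i₀) ^ (p ^ n - 1) := by
    rw [inv_eq_iff_mul_eq_one, ← pow_succ', Nat.sub_add_cancel (Nat.one_le_pow _ _ hp.out.pos), ← pow_mul,
      mul_comm, pow_mul, ← hn, pow_orderOf_eq_one, one_pow]
  rw [pow_add, pow_mul, ← h1]

section ov

variable {K B H : Type} [Field K] [NumberField K] [Field B] [NumberField B] [Field H] [NumberField H]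
  [Algebra K B] [Algebra K H] [Algebra B H] [IsScalarTower K B H] [IsGalois K B] [IsGalois K H]

/-- the order of an inflation of a faithful character -/
lemma order_over (δB : B ≃ₐ[K] B) (hgen : ∀ g : B ≃ₐ[K] B, g ∈ Subgroup.zpowers δB) (δ : H ≃ₐ[K] H)
    (hδ : ∀ b, δ (algebraMap B H b) = algebraMap B H (δB b))
    (χ : (H ≃ₐ[K] H) →* ℂ_[p]ˣ) (h1 : IsPrimitiveRoot (χ δ) (orderOf δB))
    (h2 : ∀ g : H ≃ₐ[B] H, χ (g.restrictScalars K) = 1) : orderOf χ = orderOf δB := by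
  have : IsGalois B H := IsGalois.tower_top_of_isGalois K B H
  apply Nat.dvd_antisymm
  · rw [orderOf_dvd_iff_pow_eq_one]
    ext g
    obtain ⟨a, ha⟩ := mem_powers_iff_mem_zpowers.2 (hgen (g.restrictNormal B))
    have h3 : χ g = χ δ ^ a := by
      refine chi_rho δB δ g hδ a (fun x => ?_) χ h2
      have h4 : δB ^ a = g.restrictNormal B := ha
      rw [h4, AlgEquiv.restrictNormal_commutes]
    change (((χ g) ^ orderOf δB : ℂ_[p]ˣ) : ℂ_[p]) = ((1 : ℂ_[p]ˣ) : ℂ_[p])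
    rw [h3, ← pow_mul, mul_comm, pow_mul, h1.pow_eq_one, one_pow]
  · have h3 : (χ δ) ^ orderOf χ = 1 := by
      have h4 := DFunLike.congr_fun (pow_orderOf_eq_one χ) δ
      exact h4
    exact (h1.pow_eq_one_iff_dvd _).1 h3

/-- a character over `B` -/
def Over (p : ℕ) [Fact p.Prime] (B : Type) {K H : Type} [Field K] [Field B] [Field H]
    [Algebra K B] [Algebra K H] [Algebra B H] [IsScalarTower K B H]
    (δ : H ≃ₐ[K] H) (t : ℕ) (χ : (H ≃ₐ[K] H) →* ℂ_[p]ˣ) : Prop :=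
  IsPrimitiveRoot (χ δ) t ∧ ∀ g : H ≃ₐ[B] H, χ (g.restrictScalars K) = 1

/-- plain characters: if the product with the inverse of a character over `B` is a power of `κ` -/
lemma fails_of_plain (S : Set (K →+* ℂ_[p])) (δ : H ≃ₐ[K] H) (t : ℕ)
    (χ ψ : (H ≃ₐ[K] H) →* ℂ_[p]ˣ) (h : Over p B δ t χ) (hψ : ¬ SigmaLeopoldt p K H S ψ) :
    Fails2 (B := B) p S δ t (χ⁻¹ * ψ) :=
  ⟨χ, h.1, h.2, by
    have h1 : χ * (χ⁻¹ * ψ) = ψ := mul_inv_cancel_left χ ψ
    rw [h1]
    exact hψ⟩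

/-- the orders of the plain exceptional powers -/
lemma plain_subset (S : Set (K →+* ℂ_[p])) (δB : B ≃ₐ[K] B)
    (hgen : ∀ g : B ≃ₐ[K] B, g ∈ Subgroup.zpowers δB) (δ : H ≃ₐ[K] H)
    (hδ : ∀ b, δ (algebraMap B H b) = algebraMap B H (δB b)) (κ : (H ≃ₐ[K] H) →* ℂ_[p]ˣ) (n : ℕ)
    (hn : orderOf κ = p ^ n) (h : ∃ i : ℕ, Over p B δ (orderOf δB) (κ ^ i)) :
    {j : ℕ | orderOf δB < p ^ j ∧ ∃ i : ℕ, orderOf (κ ^ i) = p ^ j ∧
      ¬ SigmaLeopoldt p K H S (κ ^ i)} ⊆ Exc2 (B := B) p S δ (orderOf δB) κ := by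
  rintro j ⟨hj, i, hi, hf⟩
  obtain ⟨i₀, h0⟩ := h
  have ho := order_over δB hgen δ hδ (κ ^ i₀) h0.1 h0.2
  obtain ⟨s, -, hs⟩ := (Nat.dvd_prime_pow hp.out).1 (hn ▸ orderOf_pow_dvd (x := κ) i₀)
  have hsj : s < j := by
    rw [← ho, hs] at hj
    exact (Nat.pow_lt_pow_iff_right hp.out.one_lt).1 hj
  have key : κ ^ (i₀ * (p ^ n - 1) + i) = (κ ^ i₀)⁻¹ * κ ^ i := pow_shift κ n i₀ i hn
  refine ⟨i₀ * (p ^ n - 1) + i, (congrArg orderOf key).trans ?_, ?_⟩
  · refine order_mul (X := (H ≃ₐ[K] H) →* ℂ_[p]ˣ) (s := s) ?_ hi hsj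
    exact (orderOf_inv (G := (H ≃ₐ[K] H) →* ℂ_[p]ˣ) (κ ^ i₀)).trans hs
  · exact Eq.mpr (congrArg (Fails2 (B := B) p S δ (orderOf δB)) key)
      (fails_of_plain S δ _ _ _ h0 hf)

end ov

section avg

/-- the order of the inflation of a character -/
lemma order_comp {G V : Type} [Group G] [Group V] (π : G →* V) (hπ : Function.Surjective π)
    (κ : V →* ℂ_[p]ˣ) : orderOf (κ.comp π) = orderOf κ := by
  rw [orderOf_eq_orderOf_iff]
  intro k
  constructor
  · intro h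
    ext v
    obtain ⟨g, rfl⟩ := hπ v
    have h1 := DFunLike.congr_fun h g
    exact congrArg Units.val h1
  · intro h
    ext g
    have h1 := DFunLike.congr_fun h (π g)
    exact congrArg Units.val h1

lemma comp_pow {G V : Type} [Group G] [Group V] (π : G →* V) (κ : V →* ℂ_[p]ˣ) (i : ℕ) :
    (κ ^ i).comp π = (κ.comp π) ^ i := by
  ext g
  rfl

/-- the proportion of the elements of `F` among the characters of `(ℤ/p^n)^r` of order `p^j` -/
noncomputable def prop (p : ℕ) [Fact p.Prime] (n r j : ℕ) (F : Set (Vr p n r →* ℂ_[p]ˣ)) : ℝ :=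
  ({κ : Vr p n r →* ℂ_[p]ˣ | κ ∈ F ∧ orderOf κ = p ^ j}.ncard : ℝ) /
    ({κ : Vr p n r →* ℂ_[p]ˣ | orderOf κ = p ^ j}.ncard : ℝ)

lemma finite_dual (n r : ℕ) : Finite (Vr p n r →* ℂ_[p]ˣ) := by
  have : NeZero (p ^ n) := ⟨pow_ne_zero _ hp.out.ne_zero⟩
  have : Finite (Vr p n r) := inferInstance
  infer_instance

/-- the average over the characters of a quotient of `Gal(H/K)` -/
theorem avg {K B H : Type} [Field K] [NumberField K] [Field B] [NumberField B] [Field H] [NumberField H]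
    [Algebra K B] [Algebra K H] [Algebra B H] [IsScalarTower K B H]
    (S : Set (K →+* ℂ_[p])) (δ : H ≃ₐ[K] H) (t e : ℕ)
    (h : ∀ (κ : (H ≃ₐ[K] H) →* ℂ_[p]ˣ) (n : ℕ), orderOf κ = p ^ n →
      (Exc2 (B := B) p S δ t κ).ncard ≤ e) (n r : ℕ) (π : (H ≃ₐ[K] H) →* Vr p n r)
    (hπ : Function.Surjective π) :
    ∑ j ∈ Finset.Icc 1 n, prop p n r j {κ | Fails2 (B := B) p S δ t (κ.comp π)} ≤ e := by
  have : NeZero (p ^ n) := ⟨pow_ne_zero _ hp.out.ne_zero⟩
  have : Finite (Vr p n r) := inferInstance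
  refine Pool.Agent.L7h97.PX.s_AVG p n r e (Vr p n r) (fun a b => mul_comm a b) ⟨MulEquiv.refl _⟩
    {κ | Fails2 (B := B) p S δ t (κ.comp π)} ?_
  intro κ hκ
  have hκ' : orderOf (κ.comp π) = p ^ n := by rw [order_comp π hπ, hκ]
  refine le_trans (Set.ncard_le_ncard ?_ ?_) (h (κ.comp π) n hκ')
  · rintro j ⟨hj1, hj2, hj3⟩
    refine ⟨p ^ (n - j), ?_, by rw [← comp_pow]; exact hj3⟩
    rw [orderOf_pow_of_dvd (pow_ne_zero _ hp.out.ne_zero) (by rw [hκ']; exact pow_dvd_pow p (Nat.sub_le n j)),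
      hκ', Nat.pow_div (Nat.sub_le n j) hp.out.pos]
    congr 1
    omega
  · refine (Set.finite_le_nat n).subset ?_
    rintro j ⟨m, hm, hf⟩
    have h2 : orderOf ((κ.comp π) ^ m) ∣ orderOf (κ.comp π) := orderOf_pow_dvd m
    rw [hm, hκ'] at h2
    exact (Nat.pow_dvd_pow_iff_le_right hp.out.one_lt).1 h2

/-- the same for plain characters, if the quotient contains a character over `B` -/
theorem avg_plain {K B H : Type} [Field K] [NumberField K] [Field B] [NumberField B] [Field H] [NumberField H]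
    [Algebra K B] [Algebra K H] [Algebra B H] [IsScalarTower K B H] [IsGalois K B] [IsGalois K H]
    (S : Set (K →+* ℂ_[p])) (δB : B ≃ₐ[K] B)
    (hgen : ∀ g : B ≃ₐ[K] B, g ∈ Subgroup.zpowers δB) (δ : H ≃ₐ[K] H)
    (hδ : ∀ b, δ (algebraMap B H b) = algebraMap B H (δB b)) (e n r : ℕ)
    (π : (H ≃ₐ[K] H) →* Vr p n r) (hπ : Function.Surjective π)
    (h : ∑ j ∈ Finset.Icc 1 n, prop p n r j {κ | Fails2 (B := B) p S δ (orderOf δB) (κ.comp π)} ≤ e)
    (hl0 : ∃ l : Vr p n r →* ℂ_[p]ˣ, Over p B δ (orderOf δB) (l.comp π)) :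
    ∑ j ∈ (Finset.Icc 1 n).filter (fun j => orderOf δB < p ^ j),
      prop p n r j {κ | ¬ SigmaLeopoldt p K H S (κ.comp π)} ≤ e := by
  classical
  obtain ⟨l, hl⟩ := hl0
  have hfin := finite_dual (p := p) n r
  have ho := order_over δB hgen δ hδ (l.comp π) hl.1 hl.2
  rw [order_comp π hπ] at ho
  refine le_trans ?_ h
  refine le_trans (Finset.sum_le_sum (g := fun j => prop p n r j
    {κ | Fails2 (B := B) p S δ (orderOf δB) (κ.comp π)}) fun j hj => ?_)
    (Finset.sum_le_sum_of_subset_of_nonneg (Finset.filter_subset _ _) fun j _ _ => ?_)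
  · rw [Finset.mem_filter] at hj
    unfold prop
    refine div_le_div_of_nonneg_right ?_ (Nat.cast_nonneg _)
    rw [Nat.cast_le]
    refine Set.ncard_le_ncard_of_injOn (fun κ => l⁻¹ * κ) ?_ ?_ (Set.toFinite _)
    · rintro κ ⟨hκ1, hκ2⟩
      -- the order of `l` is a power of `p`
      have hlp : ∃ s, orderOf l = p ^ s := by
        have h1 : orderOf l ∣ p ^ n := by
          rw [orderOf_dvd_iff_pow_eq_one]
          refine MonoidHom.ext fun v => ?_
          have h2 : v ^ p ^ n = 1 := by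
            funext i
            rw [Pi.pow_apply, Pi.one_apply]
            apply Multiplicative.toAdd.injective
            rw [toAdd_pow, toAdd_one, nsmul_eq_mul, ZMod.natCast_self, zero_mul]
          change (l v) ^ p ^ n = 1
          rw [← map_pow, h2, map_one]
        obtain ⟨s, -, hs⟩ := (Nat.dvd_prime_pow hp.out).1 h1
        exact ⟨s, hs⟩
      obtain ⟨s, hs⟩ := hlp
      have hsj : s < j := by
        have h3 := hj.2
        rw [← ho, hs] at h3
        exact (Nat.pow_lt_pow_iff_right hp.out.one_lt).1 h3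
      refine ⟨?_, order_mul (X := Vr p n r →* ℂ_[p]ˣ)
        ((orderOf_inv (G := Vr p n r →* ℂ_[p]ˣ) l).trans hs) hκ2 hsj⟩
      have h4 : (l⁻¹ * κ).comp π = (l.comp π)⁻¹ * κ.comp π := by
        ext g
        rfl
      change Fails2 (B := B) p S δ (orderOf δB) ((l⁻¹ * κ).comp π)
      rw [h4]
      exact fails_of_plain S δ _ _ _ hl hκ1
    · intro κ _ κ' _ hκ
      exact mul_left_cancel hκ
  · unfold prop
    positivity

end avg

end Pool.Agent.L7h1.PY
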