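import Pool.Agent.L7h1.PX.LatB

/-!
# The chain of levels, relative form: `a^(p^n) = 1` only on the submodule
-/

set_option autoImplicit false
set_option linter.unusedSectionVars false

namespace Pool.Agent.L7h1.PY.Lat

open Polynomial Module Submodule Pool.Agent.L7h1.PX.Lat

variable {p : ℕ} [hp : Fact p.Prime] {V : Type} [AddCommGroup V] [Module ℤ_[p] V]

section

variable (a : V →ₗ[ℤ_[p]] V) (htf : ∀ x : V, (p : ℤ_[p]) • x = 0 → x = 0)
  (hsep : ∀ x : V, (∀ i : ℕ, ∃ y, x = (p : ℤ_[p]) ^ i • y) → x = 0) {n : ℕ}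

include hsep in
/-- Nakayama's lemma for the action of a group of order `p^n` -/
lemma naka (Q : Submodule ℤ_[p] V) (hQ : ∀ x ∈ Q, a x ∈ Q) (ha : ∀ x ∈ Q, (a ^ p ^ n) x = x)
    (h : ∀ x ∈ Q, ∃ u ∈ Q, ∃ v ∈ Q, x = aeval a (X - 1 : ℤ_[p][X]) u + (p : ℤ_[p]) • v) :
    ∀ x ∈ Q, x = 0 := by
  have hQp := aeval_mem a Q hQ
  have h1 : ∀ m : ℕ, ∀ x ∈ Q, ∃ u ∈ Q, ∃ v ∈ Q,
      x = aeval a ((X - 1 : ℤ_[p][X]) ^ m) u + (p : ℤ_[p]) • v := by
    intro m
    induction m with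
    | zero => exact fun x hx => ⟨x, hx, 0, Q.zero_mem, by simp⟩
    | succ m ih =>
      intro x hx
      obtain ⟨u, hu, v, hv, h2⟩ := ih x hx
      obtain ⟨u', hu', v', hv', h3⟩ := h u hu
      refine ⟨u', hu', aeval a ((X - 1 : ℤ_[p][X]) ^ m) v' + v, Q.add_mem (hQp _ _ hv') hv, ?_⟩
      rw [h2]
      conv_lhs => rw [h3]
      rw [map_add, map_smul, aeval_comm, ← pow_succ, smul_add]
      abel
  have h2 : ∀ x ∈ Q, ∃ v ∈ Q, x = (p : ℤ_[p]) • v := by
    intro x hx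
    obtain ⟨u, hu, v, hv, h3⟩ := h1 (p ^ n) x hx
    obtain ⟨g, hg⟩ := pow_rel (p := p) n
    refine ⟨aeval a g u + v, Q.add_mem (hQp _ _ hu) hv, ?_⟩
    rw [h3, hg, map_add, LinearMap.add_apply, ← aeval_comm, aeval_C_apply]
    have h4 : aeval a (X ^ p ^ n - 1 : ℤ_[p][X]) u = 0 := by
      rw [map_sub, map_pow, aeval_X, map_one, LinearMap.sub_apply, ha u hu, Module.End.one_apply, sub_self]
    rw [h4, zero_add, smul_add]
  intro x hx
  apply hsep
  intro i
  have h3 : ∃ v ∈ Q, x = (p : ℤ_[p]) ^ i • v := by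
    induction i with
    | zero => exact ⟨x, hx, by simp⟩
    | succ i ih =>
      obtain ⟨v, hv, h4⟩ := ih
      obtain ⟨w, hw, h5⟩ := h2 v hv
      exact ⟨w, hw, by rw [h4, h5, smul_smul, pow_succ]⟩
  obtain ⟨v, -, h4⟩ := h3
  exact ⟨v, h4⟩

include htf hsep in
/-- **The chain of levels.** -/
theorem chain (W : Submodule ℤ_[p] V) (hW : ∀ x ∈ W, a x ∈ W)
    (ha : ∀ x ∈ W, (a ^ p ^ n) x = x) (J : Finset ℕ)
    (hJ : ∀ j ∈ J, 1 ≤ j ∧ ∃ x ∈ W, x ≠ 0 ∧ aeval a (Ph p j) x = 0) :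
    ∀ k : ℕ, J.card ≤ k → ∃ Z : Finset V, Z.card = p ^ J.card ∧ (∀ z ∈ Z, z ∈ MJ a W J) ∧
      ∀ z ∈ Z, ∀ z' ∈ Z, (∃ u ∈ MJ a W J, ∃ v ∈ MJ a W J,
        z - z' = aeval a (X - 1 : ℤ_[p][X]) u + (p : ℤ_[p]) ^ k • v) → z = z' := by
  classical
  have hWp := aeval_mem a W hW
  induction J using Finset.induction_on with
  | empty =>
    intro k _
    refine ⟨{0}, by simp, fun z hz => ?_, fun z hz z' hz' _ => ?_⟩
    · rw [Finset.mem_singleton.1 hz]
      exact Submodule.zero_mem _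
    · rw [Finset.mem_singleton.1 hz, Finset.mem_singleton.1 hz']
  | insert j J hjJ ih =>
    intro k hk
    rw [Finset.card_insert_of_notMem hjJ] at hk
    obtain ⟨k', rfl⟩ : ∃ k', k = k' + 1 := ⟨k - 1, by omega⟩
    obtain ⟨Z, hZc, hZM, hZ⟩ := ih (fun i hi => hJ i (Finset.mem_insert_of_mem hi)) k' (by omega)
    obtain ⟨hj, x0, hx0W, hx0, hx0j⟩ := hJ j (Finset.mem_insert_self j J)
    have hPP : PP p (insert j J) = Ph p j * PP p J := by
      rw [PP, Finset.prod_insert hjJ, PP]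
    have hPP' : PP p (insert j J) = PP p J * Ph p j := by rw [hPP, mul_comm]
    -- the module `Q'`
    set Q : Submodule ℤ_[p] V := (MJ a W (insert j J)).map (aeval a (PP p J)) with hQ
    have hM_stab : ∀ q : ℤ_[p][X], ∀ x ∈ MJ a W (insert j J), aeval a q x ∈ MJ a W (insert j J) := by
      intro q x hx
      refine ⟨hWp q x hx.1, ?_⟩
      change aeval a (PP p (insert j J)) (aeval a q x) = 0
      rw [aeval_swap, (mem_MJ.1 hx).2, map_zero]
    have hQ_stab : ∀ x ∈ Q, a x ∈ Q := by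
      rintro _ ⟨x, hx, rfl⟩
      refine ⟨aeval a (X : ℤ_[p][X]) x, hM_stab _ x hx, ?_⟩
      rw [aeval_swap, aeval_X]
    have haQ : ∀ x ∈ Q, (a ^ p ^ n) x = x := by
      rintro _ ⟨x, hx, rfl⟩
      exact ha _ (hWp _ x hx.1)
    have hQj : ∀ x ∈ Q, aeval a (Ph p j) x = 0 := by
      rintro _ ⟨x, hx, rfl⟩
      rw [aeval_comm, ← hPP]
      exact (mem_MJ.1 hx).2
    -- `Q ≠ 0`
    have hx0M : x0 ∈ MJ a W (insert j J) := by
      refine ⟨hx0W, ?_⟩
      change aeval a (PP p (insert j J)) x0 = 0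
      rw [hPP']
      exact aeval_zero' a _ _ _ hx0j
    have hne : aeval a (PP p J) x0 ≠ 0 := by
      intro h0
      obtain ⟨α, β, hαβ⟩ := pp_comb (p := p) J (fun i hi => (hJ i (Finset.mem_insert_of_mem hi)).1)
        hj hjJ
      apply hx0
      apply pow_tf htf J.card
      have h1 : aeval a (C (p : ℤ_[p]) ^ J.card) x0 = 0 := by
        rw [hαβ, map_add, LinearMap.add_apply, aeval_zero' a _ _ _ h0, aeval_zero' a _ _ _ hx0j,
          add_zero]
      rw [← C_pow, aeval_C_apply] at h1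
      exact h1
    -- the new element
    obtain ⟨y, hyM, hy⟩ : ∃ y ∈ MJ a W (insert j J), ¬ ∃ u ∈ Q, ∃ v ∈ Q,
        aeval a (PP p J) y = aeval a (X - 1 : ℤ_[p][X]) u + (p : ℤ_[p]) • v := by
      by_contra hcon
      push Not at hcon
      refine hne (naka a hsep Q hQ_stab haQ ?_ _ ⟨x0, hx0M, rfl⟩)
      rintro _ ⟨x, hx, rfl⟩
      obtain ⟨u, hu, v, hv, h⟩ := hcon x hx
      exact ⟨u, hu, v, hv, h⟩
    have hZM' : ∀ z ∈ Z, z ∈ MJ a W (insert j J) := by
      intro z hz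
      refine ⟨(hZM z hz).1, ?_⟩
      change aeval a (PP p (insert j J)) z = 0
      rw [hPP]
      exact aeval_zero' a _ _ _ (mem_MJ.1 (hZM z hz)).2
    -- incongruence
    have key : ∀ z ∈ Z, ∀ z' ∈ Z, ∀ i i' : ℕ, i < p → i' < p →
        (∃ u ∈ MJ a W (insert j J), ∃ v ∈ MJ a W (insert j J),
          (z + (i : ℤ_[p]) • y) - (z' + (i' : ℤ_[p]) • y) =
            aeval a (X - 1 : ℤ_[p][X]) u + (p : ℤ_[p]) ^ (k' + 1) • v) → z = z' ∧ i = i' := by
      rintro z hz z' hz' i i' hi hi' ⟨u, hu, v, hv, huv⟩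
      have h1 := congrArg (aeval a (PP p J)) huv
      rw [LinearMap.map_sub (aeval a (PP p J)), LinearMap.map_add (aeval a (PP p J)),
        LinearMap.map_add (aeval a (PP p J)), LinearMap.map_add (aeval a (PP p J)),
        LinearMap.map_smul (aeval a (PP p J)), LinearMap.map_smul (aeval a (PP p J)),
        LinearMap.map_smul (aeval a (PP p J)), (mem_MJ.1 (hZM z hz)).2,
        (mem_MJ.1 (hZM z' hz')).2, zero_add, zero_add, ← sub_smul, aeval_swap] at h1
      set qu := aeval a (PP p J) u with hqu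
      set qv := aeval a (PP p J) v with hqv
      have hquQ : qu ∈ Q := ⟨u, hu, rfl⟩
      have hqvQ : qv ∈ Q := ⟨v, hv, rfl⟩
      have hii : i = i' := by
        by_contra hne'
        apply hy
        -- `i - i'` is a unit modulo `p`
        have hcop : IsCoprime ((i : ℤ) - i') (p : ℤ) := by
          rw [Int.isCoprime_iff_gcd_eq_one, Int.gcd_comm]
          have hpr : Prime (p : ℤ) := Nat.prime_iff_prime_int.1 hp.out
          have h3 : ¬ (p : ℤ) ∣ (i : ℤ) - i' := by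
            intro h
            have h4 := Int.eq_zero_of_abs_lt_dvd h (by
              rw [abs_lt]
              constructor <;> omega)
            omega
          have := (Int.isCoprime_iff_gcd_eq_one).1 (hpr.coprime_iff_not_dvd.2 h3)
          exact this
        obtain ⟨α, β, hαβ⟩ := hcop
        have h5 : (α : ℤ_[p]) * ((i : ℤ_[p]) - i') + (β : ℤ_[p]) * (p : ℤ_[p]) = 1 := by
          exact_mod_cast congrArg (Int.cast : ℤ → ℤ_[p]) hαβ
        refine ⟨(α : ℤ_[p]) • qu, Q.smul_mem _ hquQ, ((α : ℤ_[p]) * (p : ℤ_[p]) ^ k') • qv +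
          (β : ℤ_[p]) • aeval a (PP p J) y, Q.add_mem (Q.smul_mem _ hqvQ)
            (Q.smul_mem _ ⟨y, hyM, rfl⟩), ?_⟩
        have h6 : aeval a (PP p J) y = (α : ℤ_[p]) • (((i : ℤ_[p]) - i') • aeval a (PP p J) y) +
            ((β : ℤ_[p]) * (p : ℤ_[p])) • aeval a (PP p J) y := by
          rw [smul_smul, ← add_smul, h5, one_smul]
        conv_lhs => rw [h6, h1]
        rw [smul_add, map_smul, smul_add, smul_smul, smul_smul, smul_smul]
        rw [show (α : ℤ_[p]) * (p : ℤ_[p]) ^ (k' + 1) = (p : ℤ_[p]) * ((α : ℤ_[p]) * (p : ℤ_[p]) ^ k') by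
          ring, show (β : ℤ_[p]) * (p : ℤ_[p]) = (p : ℤ_[p]) * (β : ℤ_[p]) by ring]
        abel
      refine ⟨?_, hii⟩
      subst hii
      rw [sub_self, zero_smul] at h1
      obtain ⟨h, hh⟩ := ph_one (p := p) hj
      have hpq : ∀ q ∈ Q, (p : ℤ_[p]) • q = - aeval a (X - 1 : ℤ_[p][X]) (aeval a h q) := by
        intro q hq
        have h2 := hQj q hq
        rw [hh, map_add, LinearMap.add_apply, aeval_C_apply, ← aeval_comm] at h2
        exact eq_neg_of_add_eq_zero_left h2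
      have h3 : aeval a (X - 1 : ℤ_[p][X]) (qu - (p : ℤ_[p]) ^ k' • aeval a h qv) = 0 := by
        rw [map_sub, map_smul]
        have h4 : (p : ℤ_[p]) ^ (k' + 1) • qv =
            -((p : ℤ_[p]) ^ k' • aeval a (X - 1 : ℤ_[p][X]) (aeval a h qv)) := by
          rw [pow_succ, mul_smul, hpq qv hqvQ, smul_neg]
        rw [h4] at h1
        rw [h1, sub_eq_add_neg]
      have h5 : qu - (p : ℤ_[p]) ^ k' • aeval a h qv = 0 := by
        refine inj_level a htf hj _ ?_ h3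
        rw [map_sub, map_smul, hQj qu hquQ, aeval_swap, hQj qv hqvQ, map_zero, smul_zero, sub_zero]
      have h6 : u - (p : ℤ_[p]) ^ k' • aeval a h v ∈ MJ a W J := by
        refine ⟨W.sub_mem hu.1 (W.smul_mem _ (hWp _ _ hv.1)), ?_⟩
        change aeval a (PP p J) (u - (p : ℤ_[p]) ^ k' • aeval a h v) = 0
        rw [map_sub, map_smul, aeval_swap a (PP p J) h]
        exact h5
      have h7 : aeval a (Ph p j) v ∈ MJ a W J := by
        refine ⟨hWp _ _ hv.1, ?_⟩
        change aeval a (PP p J) (aeval a (Ph p j) v) = 0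
        rw [aeval_comm, ← hPP']
        exact (mem_MJ.1 hv).2
      refine hZ z hz z' hz' ⟨_, h6, _, h7, ?_⟩
      have h8 : z - z' = aeval a (X - 1 : ℤ_[p][X]) u + (p : ℤ_[p]) ^ (k' + 1) • v := by
        rw [← huv]
        abel
      have h9 : aeval a (Ph p j) v = (p : ℤ_[p]) • v + aeval a (X - 1 : ℤ_[p][X]) (aeval a h v) := by
        rw [hh, map_add, LinearMap.add_apply, aeval_C_apply, ← aeval_comm]
      rw [h8, LinearMap.map_sub (aeval a (X - 1 : ℤ_[p][X])),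
        LinearMap.map_smul (aeval a (X - 1 : ℤ_[p][X])), h9, smul_add, pow_succ, mul_smul]
      abel
    refine ⟨(Z ×ˢ Finset.range p).image fun q => q.1 + (q.2 : ℤ_[p]) • y, ?_, ?_, ?_⟩
    · rw [Finset.card_image_of_injOn, Finset.card_product, Finset.card_range, hZc,
        Finset.card_insert_of_notMem hjJ, pow_succ]
      rintro ⟨z, i⟩ hq ⟨z', i'⟩ hq' h
      rw [Finset.mem_coe, Finset.mem_product, Finset.mem_range] at hq hq'
      obtain ⟨h1, h2⟩ := key z hq.1 z' hq'.1 i i' hq.2 hq'.2 ⟨0, Submodule.zero_mem _, 0,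
        Submodule.zero_mem _, by
          rw [map_zero, smul_zero, add_zero, sub_eq_zero]
          exact h⟩
      rw [h1, h2]
    · intro z hz
      rw [Finset.mem_image] at hz
      obtain ⟨⟨z', i⟩, hq, rfl⟩ := hz
      rw [Finset.mem_product] at hq
      exact Submodule.add_mem _ (hZM' z' hq.1) (Submodule.smul_mem _ _ hyM)
    · intro z hz z' hz' h
      rw [Finset.mem_image] at hz hz'
      obtain ⟨⟨z1, i1⟩, hq1, rfl⟩ := hz
      obtain ⟨⟨z2, i2⟩, hq2, rfl⟩ := hz'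
      rw [Finset.mem_product, Finset.mem_range] at hq1 hq2
      obtain ⟨h1, h2⟩ := key z1 hq1.1 z2 hq2.1 i1 i2 hq1.2 hq2.2 h
      rw [h1, h2]

end

end Pool.Agent.L7h1.PY.Lat
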