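import Pool.Agent.L7h1.PY.Stm
import Pool.Agent.L7h1.PY.LatB

/-!
# Lattices over `ℤ_p` with the action of a cyclic group: the statement LAT2
-/

set_option autoImplicit false
set_option linter.unusedSectionVars false

namespace Pool.Agent.L7h1.PY.Lat

open Polynomial Module Submodule
open Pool.Agent.L7h1.PX.Lat (Ph PP MJ mem_MJ aeval_mem aeval_comm aeval_swap aeval_zero' aeval_C_apply aeval_Xs pow_tf
  inj_level)

variable {p : ℕ} [hp : Fact p.Prime] {ι : Type} [Fintype ι] [DecidableEq ι]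

lemma toZ_eq_zero {k : ℕ} {x : ℤ_[p]} (h : PadicInt.toZModPow k x = 0) :
    ∃ y : ℤ_[p], x = (p : ℤ_[p]) ^ k * y := by
  have h1 : x ∈ RingHom.ker (PadicInt.toZModPow (p := p) k) := h
  rw [PadicInt.ker_toZModPow, Ideal.mem_span_singleton] at h1
  exact h1

lemma toZ_pow (k : ℕ) (y : ℤ_[p]) : PadicInt.toZModPow k ((p : ℤ_[p]) ^ k * y) = 0 := by
  have h1 : (p : ℤ_[p]) ^ k * y ∈ RingHom.ker (PadicInt.toZModPow (p := p) k) := by
    rw [PadicInt.ker_toZModPow, Ideal.mem_span_singleton]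
    exact ⟨y, rfl⟩
  exact h1

/-- kernel and cokernel of an endomorphism of a finite group -/
lemma card_ker {G : Type} [AddCommGroup G] [Finite G] (f : G →+ G) (Z : Finset G)
    (hZ : ∀ z ∈ Z, ∀ z' ∈ Z, (∃ u, z - z' = f u) → z = z') : Z.card ≤ Nat.card f.ker := by
  classical
  have h1 : Nat.card f.ker = Nat.card (G ⧸ f.range) := by
    have h2 := AddSubgroup.card_eq_card_quotient_mul_card_addSubgroup f.ker
    have h3 := AddSubgroup.card_eq_card_quotient_mul_card_addSubgroup f.range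
    have h4 : Nat.card (G ⧸ f.ker) = Nat.card f.range :=
      Nat.card_congr (QuotientAddGroup.quotientKerEquivRange f).toEquiv
    rw [h4] at h2
    have h5 : 0 < Nat.card f.range := Nat.card_pos
    have h6 : Nat.card f.range * Nat.card f.ker = Nat.card f.range * Nat.card (G ⧸ f.range) := by
      rw [← h2, h3, mul_comm]
    exact Nat.eq_of_mul_eq_mul_left h5 h6
  rw [h1]
  have h2 : Function.Injective fun z : Z => (QuotientAddGroup.mk (z : G) : G ⧸ f.range) := by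
    intro z z' h
    apply Subtype.ext
    have h3 := QuotientAddGroup.eq.1 h
    obtain ⟨u, hu⟩ := h3
    refine hZ z z.2 z' z'.2 ⟨-u, ?_⟩
    rw [map_neg, hu]
    abel
  have h3 := Nat.card_le_card_of_injective _ h2
  rwa [Nat.card_eq_fintype_card, Fintype.card_coe] at h3

/-- reduction modulo `p^k` -/
noncomputable def red (k : ℕ) : (ι → ℤ_[p]) →+ (ι → ZMod (p ^ k)) where
  toFun x i := PadicInt.toZModPow k (x i)
  map_zero' := by funext i; simp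
  map_add' x y := by funext i; simp

lemma red_apply (k : ℕ) (x : ι → ℤ_[p]) (i : ι) :
    red k x i = PadicInt.toZModPow k (x i) := rfl

lemma red_eq_zero {k : ℕ} {x : ι → ℤ_[p]} (hx : red k x = 0) :
    ∃ y : ι → ℤ_[p], x = (p : ℤ_[p]) ^ k • y := by
  choose y hy using fun i => toZ_eq_zero (congrFun hx i)
  exact ⟨y, funext fun i => by rw [hy i]; rfl⟩

lemma toZ_int (k : ℕ) (z : ℤ) : PadicInt.toZModPow k (z : ℤ_[p]) = (z : ZMod (p ^ k)) :=
  map_intCast _ z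

/-- the action of an integral matrix modulo `p^k` -/
def mv (p k : ℕ) (E : Matrix (ι) (ι) ℤ) : (ι → ZMod (p ^ k)) →+ (ι → ZMod (p ^ k)) where
  toFun x := (E.map (Int.cast : ℤ → ZMod (p ^ k))).mulVec x
  map_zero' := Matrix.mulVec_zero _
  map_add' x y := Matrix.mulVec_add _ x y

lemma mv_red (k : ℕ) (E : Matrix (ι) (ι) ℤ) (x : ι → ℤ_[p]) :
    mv p k E (red k x) = red k ((E.map (Int.cast : ℤ → ℤ_[p])).mulVec x) := by
  funext i
  change ∑ j, (E.map (Int.cast : ℤ → ZMod (p ^ k))) i j * red k x j =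
    PadicInt.toZModPow k (∑ j, (E.map (Int.cast : ℤ → ℤ_[p])) i j * x j)
  rw [map_sum]
  refine Finset.sum_congr rfl fun j _ => ?_
  rw [map_mul, Matrix.map_apply, Matrix.map_apply, toZ_int, red_apply]

/-- the induced endomorphism of the reduction of a stable submodule -/
def fM (p k : ℕ) (E : Matrix (ι) (ι) ℤ) (Mb : AddSubgroup (ι → ZMod (p ^ k)))
    (h : ∀ x ∈ Mb, mv p k E x - x ∈ Mb) : Mb →+ Mb where
  toFun x := ⟨mv p k E x - x, h x x.2⟩
  map_zero' := by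
    ext1
    change mv p k E 0 - 0 = 0
    rw [map_zero, sub_zero]
  map_add' x y := by
    ext1
    change mv p k E (x + y) - (x + y) = (mv p k E x - x) + (mv p k E y - y)
    rw [map_add]
    abel

/-- **From the cokernel to the kernel.** -/
theorem fixed (k : ℕ) (A : Matrix (ι) (ι) ℤ) (M : Submodule ℤ_[p] (ι → ℤ_[p]))
    (hMa : ∀ x ∈ M, (A.map (Int.cast : ℤ → ℤ_[p])).mulVec x ∈ M)
    (hMsat : ∀ x, (p : ℤ_[p]) ^ k • x ∈ M → x ∈ M) (Z : Finset (ι → ℤ_[p]))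
    (hZM : ∀ z ∈ Z, z ∈ M)
    (hZ : ∀ z ∈ Z, ∀ z' ∈ Z, (∃ u ∈ M, ∃ v ∈ M,
      z - z' = ((A.map (Int.cast : ℤ → ℤ_[p])).mulVec u - u) + (p : ℤ_[p]) ^ k • v) → z = z') :
    ∃ X : Finset (ι → ZMod (p ^ k)), Z.card ≤ X.card ∧
      ∀ x ∈ X, mv p k A x = x ∧ ∃ w ∈ M, red k w = x := by
  classical
  have : NeZero (p ^ k) := ⟨pow_ne_zero _ hp.out.ne_zero⟩
  have hMb : ∀ x ∈ M.toAddSubgroup.map (red k), mv p k A x - x ∈ M.toAddSubgroup.map (red k) := by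
    rintro _ ⟨y, hy, rfl⟩
    rw [mv_red, ← map_sub]
    exact ⟨_, M.sub_mem (hMa y hy) hy, rfl⟩
  have hz1 : ∀ z : {x // x ∈ Z}, red k z.1 ∈ M.toAddSubgroup.map (red k) :=
    fun z => ⟨z.1, hZM z.1 z.2, rfl⟩
  have hinj : Function.Injective fun z : {x // x ∈ Z} =>
      (⟨red k z.1, hz1 z⟩ : M.toAddSubgroup.map (red k)) := by
    intro z z' h
    apply Subtype.ext
    have h1 : red k z.1 = red k z'.1 := congrArg Subtype.val h
    have h2 : red k (z.1 - z'.1) = 0 := by rw [map_sub, h1, sub_self]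
    obtain ⟨v, hv⟩ := red_eq_zero h2
    refine hZ z.1 z.2 z'.1 z'.2 ⟨0, M.zero_mem, v, hMsat v ?_, by
      rw [Matrix.mulVec_zero, sub_zero, zero_add, hv]⟩
    rw [← hv]
    exact M.sub_mem (hZM z.1 z.2) (hZM z'.1 z'.2)
  have hcard := card_ker (fM p k A _ hMb) (Z.attach.image fun z =>
      (⟨red k z.1, hz1 z⟩ : M.toAddSubgroup.map (red k))) (by
    intro z hz z' hz' hu
    rw [Finset.mem_image] at hz hz'
    obtain ⟨y, -, rfl⟩ := hz
    obtain ⟨y', -, rfl⟩ := hz'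
    obtain ⟨u', h1⟩ := hu
    obtain ⟨u, hu, hu'⟩ := u'.2
    have h2 : red k y.1 - red k y'.1 = mv p k A (red k u) - red k u := by
      have h3 := congrArg Subtype.val h1
      rw [hu']
      exact h3
    rw [mv_red, ← map_sub, ← map_sub] at h2
    have h3 : red k ((y.1 - y'.1) - ((A.map (Int.cast : ℤ → ℤ_[p])).mulVec u - u)) = 0 := by
      rw [map_sub, h2, sub_self]
    obtain ⟨v, hv⟩ := red_eq_zero h3
    have h4 : (p : ℤ_[p]) ^ k • v ∈ M := by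
      rw [← hv]
      exact M.sub_mem (M.sub_mem (hZM _ y.2) (hZM _ y'.2)) (M.sub_mem (hMa u hu) hu)
    have h5 : y.1 = y'.1 := by
      refine hZ _ y.2 _ y'.2 ⟨u, hu, v, hMsat v h4, ?_⟩
      rw [← hv]
      abel
    rw [Subtype.ext h5])
  rw [Finset.card_image_of_injective _ hinj, Finset.card_attach] at hcard
  have : Fintype (fM p k A _ hMb).ker := Fintype.ofFinite _
  refine ⟨Finset.image (fun x : (fM p k A _ hMb).ker => x.1.1) Finset.univ, ?_, ?_⟩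
  · rw [Finset.card_image_of_injective, Finset.card_univ, ← Nat.card_eq_fintype_card]
    · exact hcard
    · intro x y h
      exact Subtype.ext (Subtype.ext h)
  · intro x hx
    rw [Finset.mem_image] at hx
    obtain ⟨y, -, rfl⟩ := hx
    refine ⟨?_, ?_⟩
    · have h1 : fM p k A _ hMb y.1 = 0 := y.2
      have h2 := congrArg Subtype.val h1
      exact sub_eq_zero.1 h2
    · obtain ⟨w, hw, hwx⟩ := y.1.2
      exact ⟨w, hw, hwx⟩

lemma congr_int (k : ℕ) (x y : ι → ℤ)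
    (h : ∀ i, ((x i : ℤ) : ZMod (p ^ k)) = ((y i : ℤ) : ZMod (p ^ k))) :
    ∃ z : ι → ℤ, x = y + (p : ℤ) ^ k • z := by
  have h1 : ∀ i, ∃ z : ℤ, x i - y i = (p : ℤ) ^ k * z := by
    intro i
    have h2 : (((x i - y i : ℤ)) : ZMod (p ^ k)) = 0 := by
      push_cast
      rw [h i, sub_self]
    rw [ZMod.intCast_zmod_eq_zero_iff_dvd] at h2
    obtain ⟨z, hz⟩ := h2
    exact ⟨z, by rw [hz]; push_cast; ring⟩
  choose z hz using h1
  refine ⟨z, funext fun i => ?_⟩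
  rw [Pi.add_apply, Pi.smul_apply, smul_eq_mul, ← hz i]
  ring

lemma congr_int' (k : ℕ) (x y z : ι → ℤ) (h : x = y + (p : ℤ) ^ k • z) (i : ι) :
    ((x i : ℤ) : ZMod (p ^ k)) = ((y i : ℤ) : ZMod (p ^ k)) := by
  rw [h, Pi.add_apply, Pi.smul_apply, smul_eq_mul]
  push_cast
  have h1 : ((p : ZMod (p ^ k))) ^ k = 0 := by
    rw [← Nat.cast_pow]
    exact ZMod.natCast_self _
  rw [h1, zero_mul, add_zero]

/-- the coefficients in `ℂ_p` -/
noncomputable def al (p : ℕ) [Fact p.Prime] : ℤ_[p] →+* ℂ_[p] :=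
  (algebraMap ℚ_[p] ℂ_[p]).comp PadicInt.Coe.ringHom

lemma norm_al (x : ℤ_[p]) : ‖al p x‖ = ‖x‖ := by
  change ‖algebraMap ℚ_[p] ℂ_[p] (x : ℚ_[p])‖ = ‖x‖
  rw [norm_algebraMap']
  rfl

/-- small logarithms of an integral vector congruent to a relation -/
theorem small (k : ℕ) (T : Type) [Finite T] (l : T → ι → ℂ_[p]) (w : ι → ℤ_[p])
    (hw : ∀ σ, ∑ i, al p (w i) * l σ i = 0) (y : ι → ℤ)
    (hy : ∀ i, PadicInt.toZModPow k (w i) = ((y i : ℤ) : ZMod (p ^ k))) (ε : ℝ) (hε : 0 < ε) :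
    ∃ z : ι → ℤ, ∀ σ, ‖∑ i, ((y + (p : ℤ) ^ k • z) i : ℂ_[p]) * l σ i‖ < ε := by
  have h2 : red k (w - fun i => ((y i : ℤ) : ℤ_[p])) = 0 := by
    funext i
    rw [red_apply, Pi.sub_apply, map_sub, hy, toZ_int, sub_self]
    rfl
  obtain ⟨v, hv⟩ := red_eq_zero h2
  obtain ⟨C, hC0, hC⟩ : ∃ C : ℝ, 0 < C ∧ ∀ σ i, ‖l σ i‖ ≤ C := by
    have := Fintype.ofFinite T
    refine ⟨∑ σ, ∑ i, ‖l σ i‖ + 1, by positivity, fun σ i => ?_⟩
    have h3 : ‖l σ i‖ ≤ ∑ i, ‖l σ i‖ :=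
      Finset.single_le_sum (f := fun i => ‖l σ i‖) (fun _ _ => norm_nonneg _) (Finset.mem_univ i)
    have h4 : ∑ i, ‖l σ i‖ ≤ ∑ σ, ∑ i, ‖l σ i‖ :=
      Finset.single_le_sum (f := fun σ => ∑ i, ‖l σ i‖)
        (fun _ _ => Finset.sum_nonneg fun _ _ => norm_nonneg _) (Finset.mem_univ σ)
    linarith
  obtain ⟨m, hm⟩ : ∃ m : ℕ, ((Fintype.card ι : ℝ) + 1) * C * ((p : ℝ)⁻¹) ^ m < ε := by
    have h2 : Filter.Tendsto (fun i : ℕ => ((Fintype.card ι : ℝ) + 1) * C * ((p : ℝ)⁻¹) ^ i) Filter.atTop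
        (nhds (((Fintype.card ι : ℝ) + 1) * C * 0)) :=
      (tendsto_pow_atTop_nhds_zero_of_lt_one (by positivity)
        (inv_lt_one_of_one_lt₀ (by exact_mod_cast hp.out.one_lt))).const_mul _
    rw [mul_zero] at h2
    exact (h2.eventually (gt_mem_nhds hε)).exists
  refine ⟨fun i => ((PadicInt.appr (v i) m : ℕ) : ℤ), fun σ => ?_⟩
  have h3 : ∀ i, ∃ q : ℤ_[p], ((((y + (p : ℤ) ^ k •
      (fun i => ((PadicInt.appr (v i) m : ℕ) : ℤ))) i : ℤ)) : ℤ_[p]) =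
        w i - (p : ℤ_[p]) ^ m * q := by
    intro i
    have h4 := PadicInt.appr_spec m (v i)
    rw [Ideal.mem_span_singleton] at h4
    obtain ⟨q, hq⟩ := h4
    have h5 := congrFun hv i
    rw [Pi.sub_apply, Pi.smul_apply, smul_eq_mul] at h5
    refine ⟨(p : ℤ_[p]) ^ k * q, ?_⟩
    rw [Pi.add_apply, Pi.smul_apply, smul_eq_mul]
    push_cast
    linear_combination -h5 - (p : ℤ_[p]) ^ k * hq
  choose q hq using h3
  have h8 : ∀ i, (((y + (p : ℤ) ^ k • (fun i => ((PadicInt.appr (v i) m : ℕ) : ℤ))) i : ℤ) :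
      ℂ_[p]) = al p (w i) - al p ((p : ℤ_[p]) ^ m) * al p (q i) := by
    intro i
    rw [← map_mul, ← map_sub, ← hq i, map_intCast]
  have h6 : ∑ i, (((y + (p : ℤ) ^ k • (fun i => ((PadicInt.appr (v i) m : ℕ) : ℤ))) i : ℤ) :
      ℂ_[p]) * l σ i = - (al p ((p : ℤ_[p]) ^ m) * ∑ i, al p (q i) * l σ i) := by
    simp_rw [h8, sub_mul]
    rw [Finset.sum_sub_distrib, hw σ, zero_sub, Finset.mul_sum]
    congr 1
    refine Finset.sum_congr rfl fun i _ => ?_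
    ring
  rw [h6, norm_neg, norm_mul]
  have h9 : ‖∑ i, al p (q i) * l σ i‖ ≤ ∑ _i : ι, C := by
    refine (norm_sum_le _ _).trans (Finset.sum_le_sum fun i _ => ?_)
    rw [norm_mul, norm_al]
    exact (mul_le_of_le_one_left (norm_nonneg _) (PadicInt.norm_le_one _)).trans (hC σ i)
  rw [Finset.sum_const, Finset.card_univ, nsmul_eq_mul] at h9
  rw [norm_al, norm_pow, PadicInt.norm_p]
  have hpm : (0 : ℝ) < ((p : ℝ)⁻¹) ^ m := by
    have : (0 : ℝ) < p := by exact_mod_cast hp.out.pos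
    positivity
  calc ((p : ℝ)⁻¹) ^ m * ‖∑ i, al p (q i) * l σ i‖ ≤ ((p : ℝ)⁻¹) ^ m * (Fintype.card ι * C) :=
        mul_le_mul_of_nonneg_left h9 hpm.le
    _ ≤ ((Fintype.card ι : ℝ) + 1) * C * ((p : ℝ)⁻¹) ^ m := by nlinarith
    _ < ε := hm

lemma tf_V (x : ι → ℤ_[p]) (hx : (p : ℤ_[p]) • x = 0) : x = 0 := by
  funext i
  have h1 := congrFun hx i
  rw [Pi.smul_apply, smul_eq_mul, Pi.zero_apply] at h1
  rcases mul_eq_zero.1 h1 with h2 | h2
  · exact absurd (by exact_mod_cast h2) hp.out.ne_zero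
  · exact h2

lemma sep_V (x : ι → ℤ_[p]) (hx : ∀ i : ℕ, ∃ y, x = (p : ℤ_[p]) ^ i • y) : x = 0 := by
  funext j
  rw [Pi.zero_apply, ← norm_eq_zero]
  have h1 : ∀ i : ℕ, ‖x j‖ ≤ ((p : ℝ)⁻¹) ^ i := by
    intro i
    obtain ⟨y, hy⟩ := hx i
    rw [hy, Pi.smul_apply, smul_eq_mul, norm_mul, norm_pow, PadicInt.norm_p]
    exact mul_le_of_le_one_right (by positivity) (PadicInt.norm_le_one _)
  have h2 : Filter.Tendsto (fun i : ℕ => ((p : ℝ)⁻¹) ^ i) Filter.atTop (nhds 0) :=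
    tendsto_pow_atTop_nhds_zero_of_lt_one (by positivity)
      (inv_lt_one_of_one_lt₀ (by exact_mod_cast hp.out.one_lt))
  exact le_antisymm (ge_of_tendsto' h2 h1) (norm_nonneg _)

/-- the endomorphism given by the matrix -/
noncomputable def en (p : ℕ) [Fact p.Prime] (A : Matrix (ι) (ι) ℤ) :
    (ι → ℤ_[p]) →ₗ[ℤ_[p]] (ι → ℤ_[p]) :=
  Matrix.toLinAlgEquiv' (A.map (Int.cast : ℤ → ℤ_[p]))

lemma en_apply (A : Matrix (ι) (ι) ℤ) (x : ι → ℤ_[p]) :
    en p A x = (A.map (Int.cast : ℤ → ℤ_[p])).mulVec x := rfl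

lemma aeval_en (A : Matrix (ι) (ι) ℤ) (q : ℤ_[p][X]) (x : ι → ℤ_[p]) :
    aeval (en p A) q x = (aeval (A.map (Int.cast : ℤ → ℤ_[p])) q).mulVec x := by
  have h1 : aeval (en p A) q = Matrix.toLinAlgEquiv' (aeval (A.map (Int.cast : ℤ → ℤ_[p])) q) :=
    aeval_algHom_apply (Matrix.toLinAlgEquiv' (R := ℤ_[p]) (n := ι)) _ q
  rw [h1]
  rfl


/-- the module of the relations -/
noncomputable def WW {G : Type} (T : Type) (l : T → ι → ℂ_[p]) (D : G → Matrix ι ι ℤ) :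
    Submodule ℤ_[p] (ι → ℤ_[p]) where
  carrier := {x | (∀ σ, ∑ i, al p (x i) * l σ i = 0) ∧
    ∀ g, ((D g).map (Int.cast : ℤ → ℤ_[p])).mulVec x = 0}
  zero_mem' := ⟨fun σ => by simp, fun g => by simp⟩
  add_mem' := by
    rintro x y ⟨hx1, hx2⟩ ⟨hy1, hy2⟩
    refine ⟨fun σ => ?_, fun g => by rw [Matrix.mulVec_add, hx2, hy2, add_zero]⟩
    simp only [Pi.add_apply, map_add, add_mul, Finset.sum_add_distrib]
    rw [hx1 σ, hy1 σ, add_zero]
  smul_mem' := by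
    rintro c x ⟨hx1, hx2⟩
    refine ⟨fun σ => ?_, fun g => by rw [Matrix.mulVec_smul, hx2, smul_zero]⟩
    simp only [Pi.smul_apply, smul_eq_mul, map_mul, mul_assoc]
    rw [← Finset.mul_sum, hx1 σ, mul_zero]

lemma mem_WW {G : Type} {T : Type} {l : T → ι → ℂ_[p]} {D : G → Matrix ι ι ℤ}
    {x : ι → ℤ_[p]} : x ∈ WW T l D ↔ (∀ σ, ∑ i, al p (x i) * l σ i = 0) ∧
      ∀ g, ((D g).map (Int.cast : ℤ → ℤ_[p])).mulVec x = 0 := Iff.rfl

lemma WW_stable {G : Type} {T : Type} {l : T → ι → ℂ_[p]} {A : Matrix ι ι ℤ} {D : G → Matrix ι ι ℤ}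
    (hAD : ∀ g, A * D g = D g * A)
    (hl : ∀ x : ι → ℤ_[p], (∀ σ, ∑ i, al p (x i) * l σ i = 0) →
      ∀ σ, ∑ i, al p ((A.map (Int.cast : ℤ → ℤ_[p])).mulVec x i) * l σ i = 0) :
    ∀ x ∈ WW T l D, en p A x ∈ WW T l D := by
  intro x hx
  rw [mem_WW] at hx ⊢
  refine ⟨fun σ => hl x hx.1 σ, fun g => ?_⟩
  have hc : (D g).map (Int.cast : ℤ → ℤ_[p]) * A.map (Int.cast : ℤ → ℤ_[p]) =
      A.map (Int.cast : ℤ → ℤ_[p]) * (D g).map (Int.cast : ℤ → ℤ_[p]) := by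
    have h1 : ∀ B : Matrix ι ι ℤ, B.map (Int.cast : ℤ → ℤ_[p]) =
      (Int.castRingHom ℤ_[p]).mapMatrix B := fun _ => rfl
    rw [h1, h1, ← map_mul, ← map_mul, hAD]
  rw [en_apply, Matrix.mulVec_mulVec, hc, ← Matrix.mulVec_mulVec, hx.2, Matrix.mulVec_zero]

lemma MJ_sat {G : Type} {T : Type} {l : T → ι → ℂ_[p]} {A : Matrix ι ι ℤ} {D : G → Matrix ι ι ℤ}
    (J : Finset ℕ) (k : ℕ) (x : ι → ℤ_[p])
    (hx : (p : ℤ_[p]) ^ k • x ∈ MJ (en p A) (WW T l D) J) : x ∈ MJ (en p A) (WW T l D) J := by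
  have hp0 : al p ((p : ℤ_[p]) ^ k) ≠ 0 := by
    rw [map_pow, map_natCast]
    exact pow_ne_zero _ (by exact_mod_cast hp.out.ne_zero)
  refine ⟨mem_WW.2 ⟨fun σ => ?_, fun g => ?_⟩, ?_⟩
  · have h1 := (mem_WW.1 hx.1).1 σ
    simp only [Pi.smul_apply, smul_eq_mul, map_mul, mul_assoc] at h1
    rw [← Finset.mul_sum] at h1
    rcases mul_eq_zero.1 h1 with h2 | h2
    · exact absurd h2 hp0
    · exact h2
  · have h1 := (mem_WW.1 hx.1).2 g
    rw [Matrix.mulVec_smul] at h1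
    exact pow_tf tf_V k _ h1
  · change aeval (en p A) (PP p J) x = 0
    have h1 := (mem_MJ.1 hx).2
    rw [map_smul] at h1
    exact pow_tf tf_V k _ h1

lemma en_pow_one {A E : Matrix ι ι ℤ} (n : ℕ) (hE : E = A ^ p ^ n - 1) (x : ι → ℤ_[p])
    (hx : (E.map (Int.cast : ℤ → ℤ_[p])).mulVec x = 0) : ((en p A) ^ p ^ n) x = x := by
  have h1 : ∀ B : Matrix ι ι ℤ, B.map (Int.cast : ℤ → ℤ_[p]) =
    (Int.castRingHom ℤ_[p]).mapMatrix B := fun _ => rfl
  have h2 : (en p A) ^ p ^ n = en p (A ^ p ^ n) := by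
    rw [en, en, h1, h1, map_pow, map_pow]
  rw [h2, en_apply]
  rw [hE, h1, map_sub, map_one, Matrix.sub_mulVec, Matrix.one_mulVec, sub_eq_zero] at hx
  exact hx

end Pool.Agent.L7h1.PY.Lat

namespace Pool.Agent.L7h1.PY

open Polynomial Module Submodule Pool.Agent.L7h1.PY.Lat
open Pool.Agent.L7h1.PX.Lat (Ph PP MJ mem_MJ aeval_mem aeval_comm aeval_swap aeval_zero' aeval_C_apply aeval_Xs pow_tf
  inj_level)

theorem s_LAT2 : S_LAT2 := by
  classical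
  intro p hp ι _ _ n A G D T hT l J hAD hDn hl hJ
  have hW := WW_stable (p := p) (T := T) (l := l) (D := D) hAD hl
  have hWn : ∀ x ∈ WW T l D, ((en p A) ^ p ^ n) x = x := by
    intro x hx
    obtain ⟨g, hg⟩ := hDn
    exact en_pow_one n hg x ((mem_WW.1 hx).2 g)
  have hlev : ∀ j ∈ J, 1 ≤ j ∧ ∃ x ∈ WW T l D, x ≠ 0 ∧ aeval (en p A) (Ph p j) x = 0 := by
    intro j hj
    obtain ⟨h1, x, h2, h3, h4, h5⟩ := hJ j hj
    refine ⟨h1, x, mem_WW.2 ⟨h3, h4⟩, h2, ?_⟩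
    rw [aeval_en]
    exact h5
  obtain ⟨Z, hZc, hZM, hZ⟩ := chain (en p A) tf_V sep_V _ hW hWn J hlev J.card le_rfl
  have hMa : ∀ x ∈ MJ (en p A) (WW T l D) J,
      (A.map (Int.cast : ℤ → ℤ_[p])).mulVec x ∈ MJ (en p A) (WW T l D) J := by
    intro x hx
    refine ⟨hW x hx.1, ?_⟩
    change aeval (en p A) (PP p J) (en p A x) = 0
    have h1 := aeval_swap (en p A) (PP p J) X x
    rw [aeval_X] at h1
    rw [h1, (mem_MJ.1 hx).2, map_zero]
  obtain ⟨X, hX, hXx⟩ := fixed J.card A _ hMa (fun x hx => MJ_sat J _ x hx) Z hZM (by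
    rintro z hz z' hz' ⟨u, hu, v, hv, h⟩
    refine hZ z hz z' hz' ⟨u, hu, v, hv, ?_⟩
    rw [h, aeval_Xs, en_apply])
  have : NeZero (p ^ J.card) := ⟨pow_ne_zero _ hp.out.ne_zero⟩
  have hlift : ∀ (x : ι → ZMod (p ^ J.card)) i,
      ((((x i).val : ℕ) : ℤ) : ZMod (p ^ J.card)) = x i := by
    intro x i
    simp
  refine ⟨X.image fun x i => (((x i).val : ℕ) : ℤ), ?_, ?_, ?_⟩
  · rw [Finset.card_image_of_injective]
    · exact hZc.symm.le.trans hX
    · intro x y h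
      funext i
      rw [← hlift x, ← hlift y]
      exact congrArg _ (congrFun h i)
  · intro y hy y' hy' hne hz
    rw [Finset.mem_image] at hy hy'
    obtain ⟨x, -, rfl⟩ := hy
    obtain ⟨x', -, rfl⟩ := hy'
    obtain ⟨z, hz⟩ := hz
    apply hne
    have h2 : x = x' := by
      funext i
      rw [← hlift x, ← hlift x']
      exact congr_int' _ _ _ z hz i
    rw [h2]
  · intro y hy
    rw [Finset.mem_image] at hy
    obtain ⟨ξ, hξ, rfl⟩ := hy
    obtain ⟨hx1, w, hw, hwx⟩ := hXx ξ hξ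
    have hE : ∀ (E : Matrix ι ι ℤ) i,
        ((E.mulVec (fun i => (((ξ i).val : ℕ) : ℤ)) i : ℤ) : ZMod (p ^ J.card)) =
          mv p J.card E ξ i := by
      intro E i
      change ((∑ j, E i j * (((ξ j).val : ℕ) : ℤ) : ℤ) : ZMod (p ^ J.card)) =
        ∑ j, (E.map (Int.cast : ℤ → ZMod (p ^ J.card))) i j * ξ j
      rw [Int.cast_sum]
      refine Finset.sum_congr rfl fun j _ => ?_
      rw [Int.cast_mul, hlift, Matrix.map_apply]
    refine ⟨congr_int _ _ _ fun i => ?_, fun g => ?_, fun ε hε => ?_⟩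
    · rw [hE, hx1, hlift]
    · have hx2 : mv p J.card (D g) ξ = 0 := by
        rw [← hwx, mv_red, (mem_WW.1 hw.1).2 g, map_zero]
      obtain ⟨z, hz⟩ := congr_int (p := p) J.card ((D g).mulVec (fun i => (((ξ i).val : ℕ) : ℤ))) 0 fun i => by
        rw [hE, hx2]
        simp
      exact ⟨z, by rw [hz, zero_add]⟩
    · refine small J.card T l w (mem_WW.1 hw.1).1 _ (fun i => ?_) ε hε
      rw [hlift, ← hwx]
      rfl

end Pool.Agent.L7h1.PY
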