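import Pool.Agent.L7h1.PY.Core
import Pool.Agent.L7h1.PX.Red2

/-!
# Project PY: reduction to cyclic extensions
-/

set_option autoImplicit false
set_option linter.unusedSectionVars false

namespace Pool.Agent.L7h1.PY

open NumberField TensorProduct Pool.Agent.W289.SL Module IsDedekindDomain Polynomial
open Pool.Agent.W332.SL6 (push push_push actLin_eq logLin_push logLin_tmul')
open Pool.Agent.L7h1.PX

variable {p : ℕ} [hp : Fact p.Prime]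

/-- the statement fails for the product of `κ` and some inflation of a faithful character of `Gal(B/K)` -/
def Fails2 (p : ℕ) [Fact p.Prime] {K B H : Type} [Field K] [Field B] [Field H] [NumberField H]
    [Algebra K B] [Algebra K H] [Algebra B H] [IsScalarTower K B H] (S : Set (K →+* ℂ_[p]))
    (δ : H ≃ₐ[K] H) (t : ℕ) (κ : (H ≃ₐ[K] H) →* ℂ_[p]ˣ) : Prop :=
  ∃ χ : (H ≃ₐ[K] H) →* ℂ_[p]ˣ, IsPrimitiveRoot (χ δ) t ∧
    (∀ g : H ≃ₐ[B] H, χ (g.restrictScalars K) = 1) ∧ ¬ SigmaLeopoldt p K H S (χ * κ)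

/-- the exceptional exponents -/
def Exc2 (p : ℕ) [Fact p.Prime] {K B H : Type} [Field K] [Field B] [Field H] [NumberField H]
    [Algebra K B] [Algebra K H] [Algebra B H] [IsScalarTower K B H] (S : Set (K →+* ℂ_[p]))
    (δ : H ≃ₐ[K] H) (t : ℕ) (κ : (H ≃ₐ[K] H) →* ℂ_[p]ˣ) : Set ℕ :=
  {j : ℕ | ∃ i : ℕ, orderOf (κ ^ i) = p ^ j ∧ Fails2 (B := B) p S δ t (κ ^ i)}

/-- the restriction of `κ` to `Gal(H/B)` -/
noncomputable def kres {K B H : Type} [Field K] [Field B] [Field H]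
    [Algebra K B] [Algebra K H] [Algebra B H] [IsScalarTower K B H]
    (κ : (H ≃ₐ[K] H) →* ℂ_[p]ˣ) : (H ≃ₐ[B] H) →* ℂ_[p]ˣ where
  toFun g := κ (g.restrictScalars K)
  map_one' := map_one κ
  map_mul' g h := map_mul κ (g.restrictScalars K) (h.restrictScalars K)

section red

variable {K B H : Type} [Field K] [NumberField K] [Field B] [NumberField B] [Field H] [NumberField H]
  [Algebra K B] [Algebra K H] [Algebra B H] [IsScalarTower K B H] [IsGalois K B] [IsGalois K H]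
  [IsGalois B H]

lemma exists_gen' (κ : (H ≃ₐ[K] H) →* ℂ_[p]ˣ) :
    ∃ ρ₀ : H ≃ₐ[K] H, ∀ g : H ≃ₐ[K] H, ∃ i : ℕ, κ g = κ ρ₀ ^ i := by
  have hfin : Finite κ.range := Finite.of_surjective κ.rangeRestrict κ.rangeRestrict_surjective
  have hcyc : IsCyclic κ.range := isCyclic_subgroup_units _
  obtain ⟨⟨_, ⟨γ₀, rfl⟩⟩, hγ⟩ := hcyc.exists_generator
  refine ⟨γ₀, fun g => ?_⟩
  obtain ⟨i, hi⟩ := (mem_powers_iff_mem_zpowers.2 (hγ ⟨κ g, ⟨g, rfl⟩⟩))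
  refine ⟨i, ?_⟩
  have h1 := congrArg Subtype.val hi
  exact h1.symm

lemma order_kappa' (κ : (H ≃ₐ[K] H) →* ℂ_[p]ˣ) (ρ₀ : H ≃ₐ[K] H)
    (hρ₀ : ∀ g : H ≃ₐ[K] H, ∃ i : ℕ, κ g = κ ρ₀ ^ i) : orderOf κ = orderOf (κ ρ₀) := by
  rw [orderOf_eq_orderOf_iff]
  intro k
  constructor
  · intro h
    have h1 := DFunLike.congr_fun h ρ₀
    exact h1
  · intro h
    ext g
    obtain ⟨i, hi⟩ := hρ₀ g
    change ((κ g ^ k : ℂ_[p]ˣ) : ℂ_[p]) = ((1 : ℂ_[p]ˣ) : ℂ_[p])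
    rw [hi, ← pow_mul, mul_comm, pow_mul, h, one_pow]

/-- an automorphism which is `δ^a` on `B` -/
lemma chi_rho (δB : B ≃ₐ[K] B) (δ ρ₀ : H ≃ₐ[K] H) (hδ : ∀ b, δ (algebraMap B H b) = algebraMap B H (δB b))
    (a : ℕ) (hρ₀ : ∀ b, ρ₀ (algebraMap B H b) = algebraMap B H ((δB ^ a) b))
    (χ : (H ≃ₐ[K] H) →* ℂ_[p]ˣ) (hχ : ∀ g : H ≃ₐ[B] H, χ (g.restrictScalars K) = 1) :
    χ ρ₀ = χ δ ^ a := by
  have h1 : ∀ (m : ℕ) (b : B), (δ ^ m) (algebraMap B H b) = algebraMap B H ((δB ^ m) b) := by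
    intro m
    induction m with
    | zero => intro b; rfl
    | succ m ih =>
      intro b
      rw [pow_succ', pow_succ', AlgEquiv.mul_apply, AlgEquiv.mul_apply, ih, hδ]
  have h2 : ∀ b : B, ((δ ^ a)⁻¹ * ρ₀) (algebraMap B H b) = algebraMap B H b := by
    intro b
    rw [AlgEquiv.mul_apply, hρ₀, ← h1]
    exact (δ ^ a).symm_apply_apply _
  let g : H ≃ₐ[B] H := { ((δ ^ a)⁻¹ * ρ₀ : H ≃ₐ[K] H) with commutes' := h2 }
  have h3 : g.restrictScalars K = (δ ^ a)⁻¹ * ρ₀ := by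
    ext x
    rfl
  have h4 := hχ g
  rw [h3, map_mul, map_inv, map_pow, inv_mul_eq_one] at h4
  exact h4.symm

variable (hab : ∀ g h : H ≃ₐ[K] H, g * h = h * g)

lemma fails_level (hUNQ : S_UNQ) (hDSC : S_DSC) (θ : ℂ_[p] ≃+* ℂ) {L : ℂ_[p] → ℂ_[p]}
    (hL : IsIwasawaLog p L)
    (S : Set (K →+* ℂ_[p])) (δB : B ≃ₐ[K] B) (δ ρ₀ : H ≃ₐ[K] H)
    (hδ : ∀ b, δ (algebraMap B H b) = algebraMap B H (δB b)) (t a b c : ℕ)
    (hρa : ∀ b, ρ₀ (algebraMap B H b) = algebraMap B H ((δB ^ a) b))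
    (κ : (H ≃ₐ[K] H) →* ℂ_[p]ˣ) (hρ₀ : ∀ g : H ≃ₐ[K] H, ∃ i : ℕ, κ g = κ ρ₀ ^ i)
    (γ₀ : H ≃ₐ[B] H) (hb : κ (γ₀.restrictScalars K) = κ ρ₀ ^ b) (hc : κ δ = κ ρ₀ ^ c) (m j : ℕ)
    (hj : orderOf (κ ^ m) = p ^ j) (hf : Fails2 (B := B) p S δ t (κ ^ m)) :
    Lev2 hL (Ov (Fx (kres (B := B) κ)) (SB B S))
      ((gres (kres (B := B) κ) γ₀ : Fx (kres (B := B) κ) ≃ₐ[B] Fx (kres (B := B) κ)) :
        Fx (kres (B := B) κ) ≃+* Fx (kres (B := B) κ))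
      (dres hab (kres (B := B) κ) δ) (dres hab (kres (B := B) κ) ρ₀) t a b c j := by
  obtain ⟨χ, hχδ, hχB, hfail⟩ := hf
  unfold SigmaLeopoldt at hfail
  push Not at hfail
  obtain ⟨L', hL', x, hx1, hx2, hx0⟩ := hfail
  have hxg : ∀ g : H ≃ₐ[K] H, actLin p (g : H →+* H) x = ((χ g * κ g ^ m : ℂ_[p]ˣ) : ℂ_[p]) • x :=
    fun g => hx1 g
  obtain ⟨y, hy⟩ := descend hDSC (kres (B := B) κ) x (fun g hg => by
    have h1 := hxg (g.restrictScalars K)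
    have h2 : κ (g.restrictScalars K) = 1 := hg
    rw [hχB, h2, one_pow, one_mul, Units.val_one, one_smul] at h1
    exact h1)
  have hinj : Function.Injective (push (p := p) (algebraMap (Fx (kres (B := B) κ)) H)) := by
    rw [injective_iff_map_eq_zero]
    exact fun z hz => Pool.Agent.W332.SL7.push_injective θ _ z hz
  have heig : ∀ (g' : Fx (kres (B := B) κ) →+* Fx (kres (B := B) κ)) (g : H ≃ₐ[K] H) (μ : ℂ_[p]),
      (∀ w : Fx (kres (B := B) κ), ((g' w : Fx (kres (B := B) κ)) : H) = g (w : H)) →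
      actLin p (g : H →+* H) x = μ • x → actLin p g' y = μ • y := by
    intro g' g μ hg hμ
    apply hinj
    rw [map_smul, hy, ← hμ, ← hy, actLin_eq, actLin_eq, push_push, push_push]
    congr 2
    exact RingHom.ext fun w => hg w
  refine ⟨y, ((χ δ : ℂ_[p]ˣ) : ℂ_[p]), ((κ ρ₀ ^ m : ℂ_[p]ˣ) : ℂ_[p]), ?_, ?_, ?_, ?_, ?_, ?_, ?_⟩
  · rintro rfl
    exact hx0 (by rw [← hy, map_zero])
  · rw [IsPrimitiveRoot.coe_units_iff]
    exact hχδ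
  · rw [IsPrimitiveRoot.coe_units_iff]
    have h2 := order_kappa' (κ ^ m) ρ₀ (fun g => by
      obtain ⟨i, hi⟩ := hρ₀ g
      refine ⟨i, ?_⟩
      change κ g ^ m = (κ ρ₀ ^ m) ^ i
      rw [hi, ← pow_mul, ← pow_mul, mul_comm])
    have h3 : (κ ^ m) ρ₀ = κ ρ₀ ^ m := rfl
    rw [h3, hj] at h2
    rw [h2]
    exact IsPrimitiveRoot.orderOf _
  · intro σ' hσ'
    obtain ⟨σ, rfl⟩ := exists_over (H := H) σ'
    rw [← logLin_push, hy, logLin_unq hUNQ hL hL']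
    refine hx2 σ ?_
    have h1 : σ.comp (algebraMap K H) = (((σ.comp (algebraMap (Fx (kres (B := B) κ)) H)).comp
        (algebraMap B (Fx (kres (B := B) κ)))).comp (algebraMap K B)) := by
      ext k
      change σ (algebraMap K H k) = σ (algebraMap (Fx (kres (B := B) κ)) H
        (algebraMap B (Fx (kres (B := B) κ)) (algebraMap K B k)))
      rw [← IsScalarTower.algebraMap_apply B (Fx (kres (B := B) κ)) H,
        ← IsScalarTower.algebraMap_apply K B H]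
    rw [h1]
    exact hσ'
  · refine heig _ ρ₀ _ (fun w => rfl) ?_
    rw [hxg, chi_rho δB δ ρ₀ hδ a hρa χ hχB, Units.val_mul, Units.val_pow_eq_pow_val]
  · refine heig _ (γ₀.restrictScalars K) _ (fun w => gres_coe (kres (B := B) κ) γ₀ w) ?_
    rw [hxg, hχB, one_mul, hb, ← pow_mul, mul_comm, pow_mul, Units.val_pow_eq_pow_val]
  · refine heig _ δ _ (fun w => rfl) ?_
    rw [hxg, hc, Units.val_mul, ← pow_mul, mul_comm c m, pow_mul, Units.val_pow_eq_pow_val (κ ρ₀ ^ m)]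

end red

section main

variable {K B : Type} [Field K] [NumberField K] [Field B] [NumberField B] [Algebra K B] [IsGalois K B]

/-- the reduction of the theorem for abelian extensions to the theorem for cyclic extensions -/
theorem reduce (hUNQ : S_UNQ) (hDSC : S_DSC) (hRAMD : S_RAMD2) (θ : ℂ_[p] ≃+* ℂ)
    {L : ℂ_[p] → ℂ_[p]} (hL : IsIwasawaLog p L) (S : Set (K →+* ℂ_[p])) (δB : B ≃ₐ[K] B)
    (hgen : ∀ g : B ≃ₐ[K] B, g ∈ Subgroup.zpowers δB)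
    (hbase : ∀ (L : ℂ_[p] → ℂ_[p]) (hL : IsIwasawaLog p L),
      Base hL (SB B S) (δB : B ≃+* B) (orderOf δB))
    (Q R : Finset (HeightOneSpectrum (𝓞 B))) (m : HeightOneSpectrum (𝓞 B) → ℕ) (P : ℕ → Prop)
    (hP : ∀ (H : Type) [Field H] [NumberField H] [Algebra B H] [IsGalois B H] (n : ℕ),
      finrank B H = p ^ n → ∀ γ : H ≃ₐ[B] H, (∀ g : H ≃ₐ[B] H, ∃ i : ℕ, g = γ ^ i) →
      ∀ δ ρ : H ≃+* H, (∀ b, δ (algebraMap B H b) = algebraMap B H ((δB : B ≃+* B) b)) →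
      (∀ x, γ (ρ x) = ρ (γ x)) → (∀ x, δ (ρ x) = ρ (δ x)) →
      (∀ σ ∈ Ov H (SB B S), σ.comp (ρ : H →+* H) ∈ Ov H (SB B S)) →
      (∀ w : HeightOneSpectrum (𝓞 H), Okr p (SB B S) (δB : B ≃+* B) (orderOf δB) Q R m w) →
      ∀ N a b c : ℕ, ∀ J : Finset ℕ,
      (∀ j ∈ J, 1 ≤ j ∧ j ≤ N ∧ Lev2 hL (Ov H (SB B S)) (γ : H ≃+* H) δ ρ (orderOf δB) a b c j) →
      P J.card)
    {H : Type} [Field H] [NumberField H] [Algebra K H] [Algebra B H] [IsScalarTower K B H]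
      [IsGalois K H] (hab : ∀ g h : H ≃ₐ[K] H, g * h = h * g) (δ : H ≃ₐ[K] H)
      (hδ : ∀ b, δ (algebraMap B H b) = algebraMap B H (δB b))
      (hok : ∀ w : HeightOneSpectrum (𝓞 H), Okr p (SB B S) (δB : B ≃+* B) (orderOf δB) Q R m w)
      (κ : (H ≃ₐ[K] H) →* ℂ_[p]ˣ) (n : ℕ) (hn : orderOf κ = p ^ n) :
      P (Exc2 (B := B) p S δ (orderOf δB) κ).ncard := by
  classical
  have ht : 0 < orderOf δB := orderOf_pos δB
  have : IsGalois B H := IsGalois.tower_top_of_isGalois K B H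
  obtain ⟨γ₀, hγ₀⟩ := exists_gen (kres (B := B) κ)
  obtain ⟨ρ₀, hρ₀⟩ := exists_gen' κ
  obtain ⟨b, hb⟩ := hρ₀ (γ₀.restrictScalars K)
  obtain ⟨c, hc⟩ := hρ₀ δ
  -- `ρ₀` on `B`
  obtain ⟨a, ha⟩ : ∃ a : ℕ, ∀ x, ρ₀ (algebraMap B H x) = algebraMap B H ((δB ^ a) x) := by
    obtain ⟨a, ha⟩ := mem_powers_iff_mem_zpowers.2 (hgen (ρ₀.restrictNormal B))
    refine ⟨a, fun x => ?_⟩
    have h1 : δB ^ a = ρ₀.restrictNormal B := ha
    rw [h1, AlgEquiv.restrictNormal_commutes]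
  have hkn : ∃ n', orderOf (kres (B := B) κ) = p ^ n' := by
    have h1 : orderOf (kres (B := B) κ) ∣ p ^ n := by
      rw [orderOf_dvd_iff_pow_eq_one]
      ext g
      have h2 : κ ^ p ^ n = 1 := by rw [← hn, pow_orderOf_eq_one]
      have h3 := DFunLike.congr_fun h2 (g.restrictScalars K)
      exact congrArg Units.val h3
    obtain ⟨n', -, hn'⟩ := (Nat.dvd_prime_pow hp.out).1 h1
    exact ⟨n', hn'⟩
  obtain ⟨n', hn'⟩ := hkn
  set A := Exc2 (B := B) p S δ (orderOf δB) κ with hA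
  have hfinA : ∀ j ∈ A, j ≤ n := by
    rintro j ⟨m, hm, hf⟩
    have h2 : orderOf (κ ^ m) ∣ orderOf κ := orderOf_pow_dvd m
    rw [hm, hn] at h2
    exact (Nat.pow_dvd_pow_iff_le_right hp.out.one_lt).1 h2
  have hlev : ∀ j ∈ A, 1 ≤ j ∧ j ≤ n ∧ Lev2 hL (Ov (Fx (kres (B := B) κ)) (SB B S))
      ((gres (kres (B := B) κ) γ₀ : Fx (kres (B := B) κ) ≃ₐ[B] Fx (kres (B := B) κ)) :
        Fx (kres (B := B) κ) ≃+* Fx (kres (B := B) κ))
      (dres hab (kres (B := B) κ) δ) (dres hab (kres (B := B) κ) ρ₀) (orderOf δB) a b c j := by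
    intro j hjA
    obtain ⟨m, hm, hf⟩ := hjA
    refine ⟨?_, hfinA j ⟨m, hm, hf⟩, fails_level hab hUNQ hDSC θ hL S δB δ ρ₀ hδ (orderOf δB) a b c ha
      κ hρ₀ γ₀ hb hc m j hm hf⟩
    by_contra h0
    have h1 : j = 0 := by omega
    rw [h1, pow_zero, orderOf_eq_one_iff] at hm
    rw [hm] at hf
    obtain ⟨χ, hχ1, hχ2, hχ3⟩ := hf
    rw [mul_one] at hχ3
    exact fails_one hUNQ hDSC θ S δB hbase δ hδ ⟨χ, hχ1, hχ2, hχ3⟩
  have hfin : A.Finite := (Set.finite_le_nat n).subset hfinA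
  rw [Set.ncard_eq_toFinset_card A hfin]
  refine hP (Fx (kres (B := B) κ)) n' (by rw [card_Fx (kres (B := B) κ) γ₀ hγ₀, hn'])
    (gres (kres (B := B) κ) γ₀) (fun g => ?_) (dres hab (kres (B := B) κ) δ)
    (dres hab (kres (B := B) κ) ρ₀) (fun b => ?_) (fun x => ?_) (fun x => ?_) (fun σ hσ => ?_)
    (hRAMD p B (Fx (kres (B := B) κ)) H (SB B S) (δB : B ≃+* B) (orderOf δB) Q R m hok) n a b c
    hfin.toFinset (fun j hj => hlev j ((Set.Finite.mem_toFinset hfin).1 hj))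
  · obtain ⟨g, rfl⟩ := gres_surj (kres (B := B) κ) g
    obtain ⟨i, hi⟩ := hγ₀ g
    refine ⟨i, ?_⟩
    rw [← map_pow, kappa_of_gres, hi, map_pow]
  · apply Subtype.ext
    rw [dres_coe]
    exact hδ b
  · apply Subtype.ext
    rw [gres_coe, dres_coe, dres_coe, gres_coe]
    exact comm_apply hab γ₀ ρ₀ x
  · apply Subtype.ext
    rw [dres_coe, dres_coe, dres_coe, dres_coe]
    exact DFunLike.congr_fun (hab δ ρ₀) (x : H)
  · change ((σ.comp _).comp (algebraMap B (Fx (kres (B := B) κ)))).comp (algebraMap K B) ∈ S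
    have h1 : ((σ.comp ((dres hab (kres (B := B) κ) ρ₀ :
        Fx (kres (B := B) κ) ≃+* Fx (kres (B := B) κ)) :
        Fx (kres (B := B) κ) →+* Fx (kres (B := B) κ))).comp
        (algebraMap B (Fx (kres (B := B) κ)))).comp (algebraMap K B) =
        (σ.comp (algebraMap B (Fx (kres (B := B) κ)))).comp (algebraMap K B) := by
      ext k
      change σ (dres hab (kres (B := B) κ) ρ₀ (algebraMap B (Fx (kres (B := B) κ)) (algebraMap K B k))) =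
        σ (algebraMap B (Fx (kres (B := B) κ)) (algebraMap K B k))
      congr 1
      apply Subtype.ext
      rw [dres_coe]
      change ρ₀ (algebraMap B H (algebraMap K B k)) = algebraMap B H (algebraMap K B k)
      rw [← IsScalarTower.algebraMap_apply K B H, ρ₀.commutes]
    rw [h1]
    exact hσ

lemma exc_empty (h : ¬ ∃ L : ℂ_[p] → ℂ_[p], IsIwasawaLog p L) (S : Set (K →+* ℂ_[p]))
    {H : Type} [Field H] [NumberField H] [Algebra K H] [Algebra B H] [IsScalarTower K B H]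
    (δ : H ≃ₐ[K] H) (t : ℕ) (κ : (H ≃ₐ[K] H) →* ℂ_[p]ˣ) : Exc2 (B := B) p S δ t κ = ∅ := by
  rw [Set.eq_empty_iff_forall_notMem]
  rintro i ⟨m, -, χ, -, -, hχ⟩
  exact hχ fun L hL => (h ⟨L, hL⟩).elim

/-- **At most `e + ∑ m_v` exceptional orders among the powers of a character.** -/
theorem bound (hUNI : S_UNI2) (hDOWN : S_DOWN2) (hFINQ : S_FINQ) (hDES : S_DES) (hPIG : S_PIG)
    (hUNQ : S_UNQ) (hDSC : S_DSC) (hRAMD : S_RAMD2) (θ : ℂ_[p] ≃+* ℂ)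
    (S : Set (K →+* ℂ_[p])) (hSne : S.Nonempty)
    (hcl : ∀ τ τ' : K →+* ℂ_[p], (∀ y, ‖τ' y‖ = ‖τ y‖) → τ ∈ S → τ' ∈ S)
    (hμ : ∀ τ ∈ SB B S, ∀ ζ ∈ cl τ, ζ ^ p = 1 → ζ = 1) (δB : B ≃ₐ[K] B)
    (hgen : ∀ g : B ≃ₐ[K] B, g ∈ Subgroup.zpowers δB)
    (hbase : ∀ (L : ℂ_[p] → ℂ_[p]) (hL : IsIwasawaLog p L),
      Base hL (SB B S) (δB : B ≃+* B) (orderOf δB))
    (Q : Finset (HeightOneSpectrum (𝓞 B))) :
    ∃ e : ℕ, ∀ (R : Finset (HeightOneSpectrum (𝓞 B))) (m : HeightOneSpectrum (𝓞 B) → ℕ),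
      (∀ v ∈ R, v ∉ Q) → ∀ (H : Type) [Field H] [NumberField H] [Algebra K H] [Algebra B H] [IsScalarTower K B H]
      [IsGalois K H], (∀ g h : H ≃ₐ[K] H, g * h = h * g) → ∀ δ : H ≃ₐ[K] H,
      (∀ b, δ (algebraMap B H b) = algebraMap B H (δB b)) →
      (∀ w : HeightOneSpectrum (𝓞 H), Okr p (SB B S) (δB : B ≃+* B) (orderOf δB) Q R m w) →
      ∀ (κ : (H ≃ₐ[K] H) →* ℂ_[p]ˣ) (n : ℕ), orderOf κ = p ^ n →
      (Exc2 (B := B) p S δ (orderOf δB) κ).ncard ≤ e + ∑ v ∈ R, m v := by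
  classical
  have ht : 0 < orderOf δB := orderOf_pos δB
  by_cases hLex : ∃ L : ℂ_[p] → ℂ_[p], IsIwasawaLog p L
  swap
  · refine ⟨0, fun R m _ H _ _ _ _ _ _ hab δ hδ hok κ n hn => ?_⟩
    rw [exc_empty hLex, Set.ncard_empty]
    exact Nat.zero_le _
  obtain ⟨L, hL⟩ := hLex
  obtain ⟨e, he⟩ := core hUNI hDOWN hFINQ hDES hPIG B hL (SB B S) (SB_nonempty S hSne) (SB_closed S hcl)
    hμ (δB : B ≃+* B) (orderOf δB) ht (fun x => by rw [iter_coe, pow_orderOf_eq_one]; rfl)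
    (hbase L hL) Q
  exact ⟨e, fun R m hRQ H _ _ _ _ _ _ hab δ hδ hok κ n hn =>
    reduce hUNQ hDSC hRAMD θ hL S δB hgen hbase Q R m (fun x => x ≤ e + ∑ v ∈ R, m v)
      (he R m hRQ) hab δ hδ
      hok κ n hn⟩

/-- **Less than `m₀ + ∑ m_v` exceptional orders if the Selmer group modulo `p^(m₀)` has less than `p^(m₀)` elements.** -/
theorem bound_sel (hUNI : S_UNI2) (hDOWN : S_DOWN2) (hDES : S_DES) (hPIG : S_PIG) (hSELG : S_SELG)
    (hUNQ : S_UNQ) (hDSC : S_DSC) (hRAMD : S_RAMD2) (θ : ℂ_[p] ≃+* ℂ)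
    (S : Set (K →+* ℂ_[p])) (hSne : S.Nonempty)
    (hcl : ∀ τ τ' : K →+* ℂ_[p], (∀ y, ‖τ' y‖ = ‖τ y‖) → τ ∈ S → τ' ∈ S)
    (hμ : ∀ τ ∈ SB B S, ∀ ζ ∈ cl τ, ζ ^ p = 1 → ζ = 1) (δB : B ≃ₐ[K] B)
    (hgen : ∀ g : B ≃ₐ[K] B, g ∈ Subgroup.zpowers δB)
    (hbase : ∀ (L : ℂ_[p] → ℂ_[p]) (hL : IsIwasawaLog p L),
      Base hL (SB B S) (δB : B ≃+* B) (orderOf δB)) (m₀ : ℕ) (hm₀ : 0 < m₀)
    (hB : SelLt p (SB B S) (δB : B ≃+* B) (orderOf δB) m₀)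
    (R : Finset (HeightOneSpectrum (𝓞 B))) (m : HeightOneSpectrum (𝓞 B) → ℕ)
    (H : Type) [Field H] [NumberField H] [Algebra K H] [Algebra B H] [IsScalarTower K B H]
      [IsGalois K H] (hab : ∀ g h : H ≃ₐ[K] H, g * h = h * g) (δ : H ≃ₐ[K] H)
      (hδ : ∀ b, δ (algebraMap B H b) = algebraMap B H (δB b))
      (hok : ∀ w : HeightOneSpectrum (𝓞 H), Okr p (SB B S) (δB : B ≃+* B) (orderOf δB) ∅ R m w)
      (κ : (H ≃ₐ[K] H) →* ℂ_[p]ˣ) (n : ℕ) (hn : orderOf κ = p ^ n) :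
      (Exc2 (B := B) p S δ (orderOf δB) κ).ncard < m₀ + ∑ v ∈ R, m v := by
  classical
  have ht : 0 < orderOf δB := orderOf_pos δB
  by_cases hLex : ∃ L : ℂ_[p] → ℂ_[p], IsIwasawaLog p L
  swap
  · rw [exc_empty hLex, Set.ncard_empty]
    omega
  obtain ⟨L, hL⟩ := hLex
  refine reduce hUNQ hDSC hRAMD θ hL S δB hgen hbase ∅ R m (fun x => x < m₀ + ∑ v ∈ R, m v) ?_ hab δ hδ
    hok κ n hn
  intro H' _ _ _ _ n' hn' γ hγ δ' ρ' hδ' hγρ hδρ hρ hok' N a b c J hJ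
  exact core_sel hUNI hDOWN hDES hPIG hSELG B hL (SB B S) (SB_nonempty S hSne) (SB_closed S hcl)
      hμ (δB : B ≃+* B) (orderOf δB) ht (fun x => by rw [iter_coe, pow_orderOf_eq_one]; rfl) m₀ hB
      R m H' n' hn' γ hγ δ' ρ' hδ' hγρ hδρ hρ hok' N a b c J hJ

end main

end Pool.Agent.L7h1.PY
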