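import Pool.Agent.L7h1.PX.Core

/-!
# Project PY (helper1, MP_fc6b1e_nt, replaces `AlmostAllPowers`): all abelian extensions, all characters of `p`-power order

THEOREM. `K`, `S`, `B/K` cyclic of degree `t` as in project PX. Now `H/K` is ANY abelian extension containing `B` and `κ` ANY
character of `Gal(H/K)` of `p`-power order (in PX: characters of `Gal(H/B)` with `κ(δ_H) = 1`). Then the powers `κ^i` such that
the `S`-Leopoldt statement fails for `χ₀ κ^i`, `χ₀` some inflation of a faithful character of `Gal(B/K)`, have at most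
`e + ρ(H)` different orders; `e` depends only on `B, S` and `ρ(H)` is the sum of the exponents `m_v` of the ramification indices
`p^(m_v)` in `H/B` of the primes `v` of `B` outside `S` with trivial decomposition group in `Gal(B/K)` (for
`p ∣ t`: of all the primes `v` outside `S`, `Q`). With `B = K · (layer of the cyclotomic ℤ_p-extension)` no place above `p` counts.

New parts compared with PX: LAT2, UNI2 (twisted action), DOWN2, RAMD2 (ramification at `R`), PIG, SELG.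
-/

set_option autoImplicit false

namespace Pool.Agent.L7h1.PY

open NumberField TensorProduct Pool.Agent.W289.SL Module IsDedekindDomain Polynomial
open Pool.Agent.L7h1.PX

/-- PY-LAT2 (helper1 does it). -/
def S_LAT2 : Prop := ∀ (p : ℕ) [Fact p.Prime] (ι : Type) [Fintype ι] [DecidableEq ι] (n : ℕ)
  (A : Matrix ι ι ℤ) (G : Type) (D : G → Matrix ι ι ℤ)
  (T : Type) [Finite T] (l : T → ι → ℂ_[p]) (J : Finset ℕ), (∀ g, A * D g = D g * A) →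
  (∃ g, D g = A ^ p ^ n - 1) →
  (∀ x : ι → ℤ_[p], (∀ σ, ∑ i, algebraMap ℚ_[p] ℂ_[p] (x i : ℚ_[p]) * l σ i = 0) →
    ∀ σ, ∑ i, algebraMap ℚ_[p] ℂ_[p]
      (((A.map (Int.cast : ℤ → ℤ_[p])).mulVec x i : ℤ_[p]) : ℚ_[p]) * l σ i = 0) →
  (∀ j ∈ J, 1 ≤ j ∧ ∃ x : ι → ℤ_[p], x ≠ 0 ∧
    (∀ σ, ∑ i, algebraMap ℚ_[p] ℂ_[p] (x i : ℚ_[p]) * l σ i = 0) ∧
    (∀ g, ((D g).map (Int.cast : ℤ → ℤ_[p])).mulVec x = 0) ∧
    (Polynomial.aeval (A.map (Int.cast : ℤ → ℤ_[p])) (Polynomial.cyclotomic (p ^ j) ℤ_[p])).mulVec x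
      = 0) →
  ∃ Y : Finset (ι → ℤ), p ^ J.card ≤ Y.card ∧
    (∀ y ∈ Y, ∀ y' ∈ Y, y ≠ y' → ¬ ∃ z : ι → ℤ, y = y' + (p : ℤ) ^ J.card • z) ∧
    ∀ y ∈ Y, (∃ z : ι → ℤ, A.mulVec y = y + (p : ℤ) ^ J.card • z) ∧
      (∀ g, ∃ z : ι → ℤ, (D g).mulVec y = (p : ℤ) ^ J.card • z) ∧
      ∀ ε : ℝ, 0 < ε → ∃ z : ι → ℤ, ∀ σ,
        ‖∑ i, ((y + (p : ℤ) ^ J.card • z) i : ℂ_[p]) * l σ i‖ < ε

/-- PY-UNI2: many units, twisted action. As `S_UNI` (`L7h97/PX/Uni.lean`), from `S_LAT2` and `S_RAT`. In the application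
`γ` generates `Gal(H/B)`, `δ` is a lift of the generator of `Gal(B/K)`, `κ(ρ)` generates the image of `κ`, `ρ = δ^a` on `B`,
`κ(γ) = κ(ρ)^b`, `κ(δ) = κ(ρ)^c`, and `x` is an element of the `χ₀ κ^i`-part, `ω = χ₀(δ)`, `ξ = κ(ρ)^i`.
PROOF: `r = rank`, `φ = φ(t)`, `ι = Fin φ × Fin r`, `C` the (integral) companion matrix of `Φ_t` (multiplication by `X` on
`ℤ[X]/Φ_t`, `C^t = 1`, `Φ_t(C) = 0`), `A_ρ, A_γ, A_δ` the matrices of the units as in `S_UNI`. Put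
`A = C^((t-1)a) ⊗ A_ρ` (Kronecker), `D_1 = 1 ⊗ A_γ - A^b`, `D_2 = C^(t-1) ⊗ A_δ - A^c`, `D_3 = A^(p^n) - 1`.
For `j ∈ J` let `v ∈ ℂ_p^φ` be a nonzero eigenvector of `C` for `ω` (an explicit one, or: `C` has the characteristic
polynomial `Φ_t`); `x' = v ⊗ x` satisfies `A x' = ξ x'`, `D_i x' = 0`, so `Φ_{p^j}(A) x' = 0`; apply a linear
`ℂ_p → ℚ_p` and scale as in `S_UNI`. Logarithms: `T' = Fin φ × T`, `l (k,σ) (k',i) = [k = k'] L(σ u_i)`: for every row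
`k` use `S_RAT` for the vector `v_k x`; the relations are stable under `A` because `T` is stable under `ρ`. For `y ∈ Y` take the
unit with the coordinates `y (φ-1, ·)` (the last row). It has the three properties because modulo `p^m`, `m = #J`:
`A y = y`, so `(1 ⊗ A_γ) y = y` and `(1 ⊗ A_δ) y = (C ⊗ 1) y` (multiply `D_2 y = 0` by `C`), so `(1 ⊗ Φ_t(A_δ)) y = 0`. If
the last rows of `y`, `y'` are congruent modulo `p^m`, then all rows are: in row `k ≥ 1` the second equation is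
`A_δ y_k = y_(k-1) - c_k y_(φ-1)`. -/
def S_UNI2 : Prop := ∀ (p : ℕ) [Fact p.Prime] (H : Type) [Field H] [NumberField H],
  (∀ ζ : H, ζ ^ p = 1 → ζ = 1) → ∀ (L : ℂ_[p] → ℂ_[p]) (hL : IsIwasawaLog p L)
  (T : Set (H →+* ℂ_[p])) (γ δ ρ : H ≃+* H) (n t a b c : ℕ), 0 < t →
  (∀ x, γ (ρ x) = ρ (γ x)) → (∀ x, δ (ρ x) = ρ (δ x)) →
  (∀ σ σ' : H →+* ℂ_[p], (∀ y, ‖σ' y‖ = ‖σ y‖) → σ ∈ T → σ' ∈ T) →
  (∀ σ ∈ T, σ.comp (ρ : H →+* H) ∈ T) → ∀ J : Finset ℕ,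
  (∀ j ∈ J, 1 ≤ j ∧ j ≤ n ∧ ∃ (x : UM p H) (ω ξ : ℂ_[p]), x ≠ 0 ∧ IsPrimitiveRoot ω t ∧
    IsPrimitiveRoot ξ (p ^ j) ∧ (∀ σ ∈ T, logLin hL σ x = 0) ∧
    actLin p (ρ : H →+* H) x = (ω ^ a * ξ) • x ∧
    actLin p (γ : H →+* H) x = ξ ^ b • x ∧
    actLin p (δ : H →+* H) x = (ω * ξ ^ c) • x) →
  ∃ Y : Finset (𝓞 H)ˣ, p ^ J.card ≤ Y.card ∧
    (∀ y ∈ Y, ∀ y' ∈ Y, y ≠ y' → ¬ ∃ w : (𝓞 H)ˣ, y = y' * w ^ p ^ J.card) ∧
    ∀ y ∈ Y, (∃ w : (𝓞 H)ˣ, γ ((y : 𝓞 H) : H) = ((y : 𝓞 H) : H) * ((w : 𝓞 H) : H) ^ p ^ J.card) ∧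
      (∃ w : (𝓞 H)ˣ, aeval (uE (δ : H →+* H)) (cyclotomic t ℤ) (Additive.ofMul y) =
        p ^ J.card • Additive.ofMul w) ∧
      ∀ ε : ℝ, 0 < ε → ∃ w : (𝓞 H)ˣ, ∀ σ ∈ T,
        ‖L (σ (((y * w ^ p ^ J.card : (𝓞 H)ˣ) : 𝓞 H) : H))‖ < ε

/-- `w` is allowed as in PX (`Okp`), or lies over a prime `v ∈ R` with ramification index at most `p ^ m v` -/
def Okr (p : ℕ) [Fact p.Prime] {B H : Type} [Field B] [NumberField B] [Field H] [NumberField H]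
    [Algebra B H] (S : Set (B →+* ℂ_[p])) (δ : B ≃+* B) (t : ℕ)
    (Q R : Finset (HeightOneSpectrum (𝓞 B))) (m : HeightOneSpectrum (𝓞 B) → ℕ)
    (w : HeightOneSpectrum (𝓞 H)) : Prop :=
  Okp p S δ t Q w ∨ ∃ v ∈ R, v.asIdeal = w.asIdeal.comap (algebraMap (𝓞 B) (𝓞 H)) ∧
    ¬ (w.asIdeal.comap (algebraMap (𝓞 B) (𝓞 H))).map (algebraMap (𝓞 B) (𝓞 H)) ≤
      w.asIdeal ^ (p ^ m v + 1)

/-- PY-DOWN2: as `S_DOWN` (`L7h30/PX/Down.lean`), with `R`. PROOF: only the valuations are new. `H/B` is Galois of degree `p^n`,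
so the ramification index `e_w` of `w/v` divides `p^n`, and `e_w ≤ p^(m v)`, so `e_w ∣ p^(m v)`; `u = a z^(p^k)`, `u` a unit,
gives `p^k ∣ e_w v(a)`, so `p^(k - m v) ∣ v(a)` (natural subtraction: nothing to prove if `k ≤ m v`). -/
def S_DOWN2 : Prop := ∀ (p : ℕ) [Fact p.Prime] (t : ℕ), 0 < t → ∃ c₁ : ℕ,
  ∀ (B H : Type) [Field B] [NumberField B] [Field H] [NumberField H] [Algebra B H] [IsGalois B H]
  (n : ℕ), finrank B H = p ^ n → ∀ γ : H ≃ₐ[B] H, (∀ g : H ≃ₐ[B] H, ∃ i : ℕ, g = γ ^ i) →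
  ∀ (δ : H ≃+* H) (δB : B ≃+* B), (∀ b, δ (algebraMap B H b) = algebraMap B H (δB b)) →
  (∀ x, δB^[t] x = x) →
  ∀ (L : ℂ_[p] → ℂ_[p]), IsIwasawaLog p L → ∀ (S : Set (B →+* ℂ_[p])), S.Nonempty →
  (∀ τ ∈ S, ∀ ζ ∈ cl τ, ζ ^ p = 1 → ζ = 1) →
  ∀ (Q R : Finset (HeightOneSpectrum (𝓞 B))) (m : HeightOneSpectrum (𝓞 B) → ℕ),
  (∀ w : HeightOneSpectrum (𝓞 H), Okr p S δB t Q R m w) → (∀ v ∈ R, v ∉ Q) →
  ∀ (k : ℕ) (y : (𝓞 H)ˣ),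
  (∃ w : (𝓞 H)ˣ, γ ((y : 𝓞 H) : H) = ((y : 𝓞 H) : H) * ((w : 𝓞 H) : H) ^ p ^ k) →
  (∃ w : (𝓞 H)ˣ, aeval (uE (δ : H →+* H)) (cyclotomic t ℤ) (Additive.ofMul y) =
    p ^ k • Additive.ofMul w) →
  (∀ ε : ℝ, 0 < ε → ∃ w : (𝓞 H)ˣ, ∀ σ : H →+* ℂ_[p], σ.comp (algebraMap B H) ∈ S →
    ‖L (σ (((y * w ^ p ^ k : (𝓞 H)ˣ) : 𝓞 H) : H))‖ < ε) →
  ∃ (a : Bˣ) (z : Hˣ), ((y : 𝓞 H) : H) = algebraMap B H (a : B) * (z : H) ^ p ^ k ∧
    (∀ v : HeightOneSpectrum (𝓞 B), v ∉ Q → v ∉ R → Dvd v (p ^ k) (a : B)) ∧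
    (∀ v : HeightOneSpectrum (𝓞 B), v ∉ R → Dvd v (p ^ (k - c₁)) (a : B)) ∧
    (∀ v ∈ R, Dvd v (p ^ (k - m v)) (a : B)) ∧
    (∀ τ ∈ S, ∃ b ∈ cl τ, b ^ p ^ k = τ (a : B)) ∧
    ∃ c : Bˣ, aeval (bE (δB : B →+* B)) (cyclotomic t ℤ) (Additive.ofMul a) = p ^ k • Additive.ofMul c

/-- PY-PIG: pigeonhole for the valuations at `R`. PROOF: for `a ∈ Y`, `v ∈ R` there is `x` with
`v(a) = p^(k - m v) x`; the class of `x` modulo `p^(m v)` (or of `v(a)` modulo `p^k` if `k ≤ m v`) takes at most `p^(m v)` values;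
`Y'` is the largest of the at most `p^(∑ m v)` parts. -/
def S_PIG : Prop := ∀ (p : ℕ) [Fact p.Prime] (B : Type) [Field B] [NumberField B] (k : ℕ)
  (R : Finset (HeightOneSpectrum (𝓞 B))) (m : HeightOneSpectrum (𝓞 B) → ℕ) (Y : Finset Bˣ),
  Y.Nonempty → (∀ a ∈ Y, ∀ v ∈ R, Dvd v (p ^ (k - m v)) (a : B)) →
  ∃ Y' ⊆ Y, ∃ a₀ ∈ Y', Y.card ≤ Y'.card * p ^ (∑ v ∈ R, m v) ∧
    ∀ a ∈ Y', ∀ v ∈ R, Dvd v (p ^ k) ((a / a₀ : Bˣ) : B)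

/-- PY-SELG: the Selmer groups modulo higher powers are not larger. PROOF: let `a` be in the Selmer group modulo `p^k`,
`p^i` its order modulo `p^k`-th powers. If `i ≥ m` (so `k ≥ m`), then `a^(p^(i-m)) = c^(p^(k-m))` (no `p`-th roots of unity
in `B`), `c` is in the Selmer group modulo `p^m` (no `p`-th roots of unity in the completions; `Dvd`: cancel) and
`1, c, ..., c^(p^m - 1)` are incongruent, a contradiction. So `i < m`, and (if `k ≥ m`) `a = b^(p^(k-m))` with `b` in the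
Selmer group modulo `p^m`; `Z → Sel(m)`, `a ↦ b` is injective modulo powers. If `k < m` use `a ↦ a^(p^(m-k))`. -/
def S_SELG : Prop := ∀ (p : ℕ) [Fact p.Prime] (B : Type) [Field B] [NumberField B]
  (S : Set (B →+* ℂ_[p])), S.Nonempty → (∀ τ ∈ S, ∀ ζ ∈ cl τ, ζ ^ p = 1 → ζ = 1) →
  ∀ (δ : B ≃+* B) (t m : ℕ), SelLt p S δ t m → ∀ (k : ℕ) (Z : Finset Bˣ),
  (∀ a ∈ Z, InSel p S δ t k a) →
  (∀ a ∈ Z, ∀ a' ∈ Z, a ≠ a' → ¬ ∃ c : Bˣ, a = a' * c ^ p ^ k) → Z.card < p ^ m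

/-- PY-RAMD2: the condition on the primes for a subextension (`s_RAMD` in `L7h97/PX/Ramd.lean` for `Okp`; for `v ∈ R`:
`𝔓_{w'}^N 𝓞_H ≤ 𝔓_w^N`). -/
def S_RAMD2 : Prop := ∀ (p : ℕ) [Fact p.Prime] (B H' H : Type) [Field B] [NumberField B] [Field H']
  [NumberField H'] [Field H] [NumberField H] [Algebra B H'] [Algebra H' H] [Algebra B H]
  [IsScalarTower B H' H] (S : Set (B →+* ℂ_[p])) (δ : B ≃+* B) (t : ℕ)
  (Q R : Finset (HeightOneSpectrum (𝓞 B))) (m : HeightOneSpectrum (𝓞 B) → ℕ),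
  (∀ w : HeightOneSpectrum (𝓞 H), Okr p S δ t Q R m w) →
  ∀ w' : HeightOneSpectrum (𝓞 H'), Okr p S δ t Q R m w'

end Pool.Agent.L7h1.PY
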